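import Pool.Agent.K1H7.LG.Low

/-!
Assembly: the local-global principle.
-/

set_option autoImplicit false

namespace Pool.Agent.K1H7.LG
open RC14 Pool.Agent.K1H7.EP Pool.Agent.K1H7.LE Finset Equiv
open scoped InnerProductSpace ComplexConjugate

noncomputable section

/-! ### functions on tuples as functions on the group -/
section Emb
variable {n j : ℕ}

/-- a function on `j`-tuples as a function on the group -/
def emb (κ : Tup j n) (f : RC14.V j n) : FA n :=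
  WithLp.toLp 2 fun g => f (mv (g : Perm (Fin n))⁻¹ κ)

lemma emb_apply (κ : Tup j n) (f : RC14.V j n) (g : Alt n) :
    emb κ f g = f (mv (g : Perm (Fin n))⁻¹ κ) := rfl

lemma emb_sub (κ : Tup j n) (f f' : RC14.V j n) : emb κ (f - f') = emb κ f - emb κ f' := by
  ext g
  rw [PiLp.sub_apply, emb_apply, emb_apply, emb_apply, PiLp.sub_apply]

lemma emb_RR (κ : Tup j n) (f : RC14.V j n) (h : Alt n) :
    RR n h (emb κ f) = emb κ (repA j n h f) := by
  ext g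
  rw [RR_apply, emb_apply, emb_apply, repA_apply, Subgroup.coe_mul, mul_inv_rev, mv_mul]

/-- the multiplicity -/
def mult (j n : ℕ) : ℝ := (Fintype.card (Alt n) : ℝ) / Fintype.card (Tup j n)

lemma mult_pos (hj : j ≤ n) : 0 < mult j n := by
  have : Nonempty (Tup j n) := ⟨Fin.castLEEmb hj⟩
  unfold mult
  have h1 : (0 : ℝ) < Fintype.card (Alt n) := by exact_mod_cast Fintype.card_pos
  have h2 : (0 : ℝ) < Fintype.card (Tup j n) := by exact_mod_cast Fintype.card_pos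
  positivity

lemma sum_orbit (hj : j + 2 ≤ n) (κ : Tup j n) (Φ : Tup j n → ℝ) :
    ∑ g : Alt n, Φ (mv (g : Perm (Fin n))⁻¹ κ) = mult j n * ∑ a, Φ a := by
  classical
  have hc2 : (0 : ℝ) < Fintype.card (Tup j n) := by
    have : Nonempty (Tup j n) := ⟨κ⟩
    exact_mod_cast Fintype.card_pos
  have e1 : ∀ g : Alt n, Φ (mv (g : Perm (Fin n))⁻¹ κ) =
      ∑ a, if mv (g : Perm (Fin n))⁻¹ κ = a then Φ a else 0 := by
    intro g; simp
  rw [Finset.sum_congr rfl fun g _ => e1 g, Finset.sum_comm, Finset.mul_sum]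
  refine Finset.sum_congr rfl fun a _ => ?_
  rw [← Finset.sum_filter, Finset.sum_const, nsmul_eq_mul]
  congr 1
  unfold mult
  rw [eq_div_iff hc2.ne']
  have := TRANS_card hj κ a
  rw [Fintype.card_subtype] at this
  exact_mod_cast this

lemma emb_norm (hj : j + 2 ≤ n) (κ : Tup j n) (f : RC14.V j n) :
    ‖emb κ f‖ ^ 2 = mult j n * ‖f‖ ^ 2 := by
  rw [EuclideanSpace.norm_sq_eq, EuclideanSpace.norm_sq_eq]
  exact sum_orbit hj κ (fun a => ‖f a‖ ^ 2)

lemma emb_En (hj : j + 2 ≤ n) (κ : Tup j n) {k : ℕ} (z : Fin k → Alt n) (f : RC14.V j n) :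
    En (RR n) z (emb κ f) = mult j n * En (repA j n) z f := by
  unfold En
  rw [Finset.mul_sum]
  refine Finset.sum_congr rfl fun i _ => ?_
  rw [emb_RR, ← emb_sub, emb_norm hj]

end Emb

/-! ### the gap on tuples -/
section Gap
variable {n j k : ℕ}

/-- the random walk on the `j`-tuples -/
def swalk (x : Fin k → Alt n) (f : Tup j n → ℝ) (a : Tup j n) : ℝ :=
  (∑ i, (f (mv (x i : Perm (Fin n)) a) + f (mv (x i : Perm (Fin n))⁻¹ a))) / (2 * k)

/-- spectral gap at least `ε` on the `j`-tuples -/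
def GapOn (j : ℕ) {n k : ℕ} (ε : ℝ) (x : Fin k → Alt n) : Prop :=
  ∀ f : Tup j n → ℝ, ∑ a, f a = 0 → ∑ a, f a * swalk x f a ≤ (1 - ε) * ∑ a, f a ^ 2

lemma gap_real (hk : 1 ≤ k) (x : Fin k → Alt n) (ε : ℝ) (h : GapOn j ε x) (f : Tup j n → ℝ)
    (hf : ∑ a, f a = 0) : 2 * k * ε * ∑ a, f a ^ 2 ≤
      ∑ i, ∑ a, (f (mv ((x i : Alt n) : Perm (Fin n))⁻¹ a) - f a) ^ 2 := by
  have hk' : (0 : ℝ) < 2 * k := by
    have : (0 : ℝ) < k := by exact_mod_cast hk
    linarith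
  have h1 := h f hf
  have h2 : ∀ i, ∑ a, (f a * f (mv (x i : Perm (Fin n)) a) +
      f a * f (mv (x i : Perm (Fin n))⁻¹ a)) +
      ∑ a, (f (mv ((x i : Alt n) : Perm (Fin n))⁻¹ a) - f a) ^ 2 = 2 * ∑ a, f a ^ 2 := by
    intro i
    have e1 : ∑ a, f a * f (mv (x i : Perm (Fin n)) a) =
        ∑ a, f a * f (mv (x i : Perm (Fin n))⁻¹ a) := by
      rw [← Equiv.sum_comp (mvE ((x i : Alt n) : Perm (Fin n)))
        (fun a => f a * f (mv (x i : Perm (Fin n))⁻¹ a))]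
      refine Finset.sum_congr rfl fun a _ => ?_
      change f a * f (mv (x i : Perm (Fin n)) a) = f (mv (x i : Perm (Fin n)) a) *
        f (mv (x i : Perm (Fin n))⁻¹ (mv (x i : Perm (Fin n)) a))
      rw [← mv_mul, inv_mul_cancel, mv_one, mul_comm]
    have e2 : ∑ a, f (mv ((x i : Alt n) : Perm (Fin n))⁻¹ a) ^ 2 = ∑ a, f a ^ 2 :=
      Equiv.sum_comp (mvE ((x i : Alt n) : Perm (Fin n))⁻¹) (fun a => f a ^ 2)
    have e3 : ∑ a, (f (mv ((x i : Alt n) : Perm (Fin n))⁻¹ a) - f a) ^ 2 =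
        2 * ∑ a, f a ^ 2 - 2 * ∑ a, f a * f (mv (x i : Perm (Fin n))⁻¹ a) := by
      calc _ = ∑ a, (f (mv ((x i : Alt n) : Perm (Fin n))⁻¹ a) ^ 2 + f a ^ 2 -
            2 * (f a * f (mv (x i : Perm (Fin n))⁻¹ a))) :=
            Finset.sum_congr rfl fun a _ => by ring
        _ = _ := by
            rw [Finset.sum_sub_distrib, Finset.sum_add_distrib, e2, ← Finset.mul_sum]; ring
    rw [Finset.sum_add_distrib, e1, e3]; ring
  have h3 : (∑ a, f a * swalk x f a) * (2 * k) = ∑ i, ∑ a, (f a * f (mv (x i : Perm (Fin n)) a) +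
      f a * f (mv (x i : Perm (Fin n))⁻¹ a)) := by
    rw [Finset.sum_mul, Finset.sum_comm]
    refine Finset.sum_congr rfl fun a _ => ?_
    unfold swalk
    rw [mul_assoc, div_mul_cancel₀ _ hk'.ne', Finset.mul_sum]
    refine Finset.sum_congr rfl fun i _ => by ring
  have h4 : (∑ a, f a * swalk x f a) * (2 * k) +
      ∑ i, ∑ a, (f (mv ((x i : Alt n) : Perm (Fin n))⁻¹ a) - f a) ^ 2 =
      2 * k * ∑ a, f a ^ 2 := by
    rw [h3, ← Finset.sum_add_distrib, Finset.sum_congr rfl fun i _ => h2 i, Finset.sum_const,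
      Finset.card_univ, Fintype.card_fin, nsmul_eq_mul]
    ring
  have h5 := mul_le_mul_of_nonneg_right h1 hk'.le
  linarith

/-- the complex version -/
theorem gap_complex (hk : 1 ≤ k) (x : Fin k → Alt n) (ε : ℝ) (h : GapOn j ε x) (F : RC14.V j n)
    (hF : ∑ a, F a = 0) : 2 * k * ε * ‖F‖ ^ 2 ≤ En (repA j n) x F := by
  have h2 := gap_real hk x ε h (fun a => (F a).re) (by
    rw [← Complex.re_sum, hF, Complex.zero_re])
  have h3 := gap_real hk x ε h (fun a => (F a).im) (by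
    rw [← Complex.im_sum, hF, Complex.zero_im])
  have h4 : ‖F‖ ^ 2 = ∑ a, (F a).re ^ 2 + ∑ a, (F a).im ^ 2 := by
    rw [EuclideanSpace.norm_sq_eq, ← Finset.sum_add_distrib]
    refine Finset.sum_congr rfl fun g _ => ?_
    rw [← Complex.normSq_eq_norm_sq, Complex.normSq_apply]; ring
  have h5 : En (repA j n) x F =
      ∑ i, ∑ a, ((F (mv ((x i : Alt n) : Perm (Fin n))⁻¹ a)).re - (F a).re) ^ 2 +
      ∑ i, ∑ a, ((F (mv ((x i : Alt n) : Perm (Fin n))⁻¹ a)).im - (F a).im) ^ 2 := by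
    rw [En, ← Finset.sum_add_distrib]
    refine Finset.sum_congr rfl fun i _ => ?_
    rw [EuclideanSpace.norm_sq_eq, ← Finset.sum_add_distrib]
    refine Finset.sum_congr rfl fun g _ => ?_
    rw [PiLp.sub_apply, repA_apply, ← Complex.normSq_eq_norm_sq, Complex.normSq_apply,
      Complex.sub_re, Complex.sub_im]
    ring
  rw [h4, h5]
  linarith

/-- the gap on points follows from the gap on pairs -/
theorem gap_one (hn : 3 ≤ n) (z : Fin k → Alt n) (c : ℝ)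
    (hgap : ∀ f : RC14.V 2 n, ∑ a, f a = 0 → c * ‖f‖ ^ 2 ≤ En (repA 2 n) z f) :
    ∀ f : RC14.V 1 n, ∑ a, f a = 0 → c * ‖f‖ ^ 2 ≤ En (repA 1 n) z f := by
  classical
  intro f hf
  obtain ⟨e, he⟩ : ∃ e : Fin 1 ↪ Fin 2, e = Fin.castLEEmb (by omega) := ⟨_, rfl⟩
  obtain ⟨F, hF⟩ : ∃ F : RC14.V 2 n, F = WithLp.toLp 2 fun a => f (e.trans a) := ⟨_, rfl⟩
  have hFa : ∀ a, F a = f (e.trans a) := by intro a; rw [hF]
  have hc1 : (0 : ℝ) < Fintype.card (Tup 1 n) := by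
    have : Nonempty (Tup 1 n) := ⟨Fin.castLEEmb (by omega)⟩
    exact_mod_cast Fintype.card_pos
  have hc2 : (0 : ℝ) < Fintype.card (Tup 2 n) := by
    have : Nonempty (Tup 2 n) := ⟨Fin.castLEEmb (by omega)⟩
    exact_mod_cast Fintype.card_pos
  obtain ⟨N, hN⟩ : ∃ N : ℝ, N = (Fintype.card (Tup 2 n) : ℝ) / Fintype.card (Tup 1 n) := ⟨_, rfl⟩
  have hN0 : 0 < N := by rw [hN]; positivity
  have hsum : ∀ G : Tup 1 n → ℝ, ∑ a : Tup 2 n, G (e.trans a) = N * ∑ b, G b := by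
    intro G
    have := HIGHCaux.avg e (show 2 ≤ n by omega) G
    rw [div_eq_div_iff hc2.ne' hc1.ne'] at this
    rw [hN]
    field_simp
    linarith
  have hF0 : ∑ a, F a = 0 := by
    rw [Finset.sum_congr rfl fun a _ => hFa a]
    apply Complex.ext
    · rw [Complex.re_sum, hsum fun b => (f b).re, ← Complex.re_sum, hf]; simp
    · rw [Complex.im_sum, hsum fun b => (f b).im, ← Complex.im_sum, hf]; simp
  have h1 := hgap F hF0
  have h2 : ‖F‖ ^ 2 = N * ‖f‖ ^ 2 := by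
    rw [EuclideanSpace.norm_sq_eq, EuclideanSpace.norm_sq_eq,
      Finset.sum_congr rfl fun a _ => by rw [hFa a]]
    exact hsum fun b => ‖f b‖ ^ 2
  have h3 : En (repA 2 n) z F = N * En (repA 1 n) z f := by
    unfold En
    rw [Finset.mul_sum]
    refine Finset.sum_congr rfl fun i _ => ?_
    rw [EuclideanSpace.norm_sq_eq, EuclideanSpace.norm_sq_eq]
    rw [← hsum fun b => ‖(repA 1 n (z i) f - f) b‖ ^ 2]
    refine Finset.sum_congr rfl fun a _ => ?_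
    rw [PiLp.sub_apply, PiLp.sub_apply, repA_apply, repA_apply, hFa, hFa]
    rfl
  rw [h2, h3, mul_left_comm] at h1
  exact le_of_mul_le_mul_left h1 hN0

/-- expanding tuples have the gap on pairs -/
theorem gapOn_of_expanding (hn : j + 2 ≤ n) (x : Fin k → Alt n) (ε : ℝ)
    (h : Expanding ε x) : GapOn j ε x := by
  intro f hf
  obtain ⟨κ, -⟩ : ∃ κ : Tup j n, True := ⟨Fin.castLEEmb (by omega), trivial⟩
  have h1 := h.2 (fun g => f (mv (g : Perm (Fin n))⁻¹ κ)) (by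
    rw [sum_orbit hn κ f, hf, mul_zero])
  have h2 : ∀ g : Alt n, f (mv (g : Perm (Fin n))⁻¹ κ) *
      walk x (fun g => f (mv (g : Perm (Fin n))⁻¹ κ)) g =
      (fun a => f a * swalk x f a) (mv (g : Perm (Fin n))⁻¹ κ) := by
    intro g
    simp only [walk, swalk]
    congr 2
    refine Finset.sum_congr rfl fun i _ => ?_
    rw [Subgroup.coe_mul, mul_inv_rev, mv_mul, Subgroup.coe_mul, mul_inv_rev, mv_mul,
      Subgroup.coe_inv, inv_inv, add_comm]
  rw [Finset.sum_congr rfl fun g _ => h2 g, sum_orbit hn κ (fun a => f a * swalk x f a),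
    sum_orbit hn κ (fun a => f a ^ 2), mul_left_comm] at h1
  exact le_of_mul_le_mul_left h1 (mult_pos (by omega))

end Gap

/-! ### the filtration -/
section Main
variable {n : ℕ}

lemma Q_list {G : Type*} [Group G] (F : Filt G) {k : ℕ} (z : Fin k → G) (hF : ∀ i, F.Q 1 (z i))
    (w : List G) (hw : ∀ y ∈ w, ∃ i, y = z i ∨ y = (z i)⁻¹) : F.Q w.length w.prod := by
  induction w with
  | nil => exact F.one
  | cons g w ih =>
    rw [List.prod_cons, List.length_cons, Nat.add_comm]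
    refine F.mul ?_ (ih fun y hy => hw y (List.mem_cons_of_mem _ hy))
    obtain ⟨i, h | h⟩ := hw g List.mem_cons_self
    · rw [h]; exact hF i
    · rw [h]; exact F.inv (hF i)

lemma Q_word (F : Filt (Perm (Fin n))) {k : ℕ} (x : Fin k → Alt n)
    (hF : ∀ i, F.Q 1 (x i : Perm (Fin n))) (w : List (Alt n))
    (hw : ∀ y ∈ w, ∃ i, y = x i ∨ y = (x i)⁻¹) : F.Q w.length (w.prod : Perm (Fin n)) := by
  have h4 := Q_list (F.comap (Subgroup.subtype (alternatingGroup (Fin n)))) x hF w hw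
  exact h4

/-- the local expander -/
theorem cov_local {m l : ℕ} (hl : 1 ≤ l) (ψ : Fin m ↪ Fin n) (s : Fin l → Alt m) (ε : ℝ)
    (hε : 0 < ε) (hs : Expanding ε s) (q C : ℕ) (hC : √(2 / ε) ≤ C) (v : FA n) (η : ℝ)
    (hη : 0 ≤ η) (ha : ∀ i, (dF v η hη).Q q (vA ψ (s i) : Perm (Fin n))) :
    Cov (dF v η hη) (C * q) (univ.map ψ) := by
  intro g hg
  obtain ⟨e, he⟩ := ve_surj ψ g (fun z hz => hg.2 z (by
    intro h
    rw [Finset.mem_map] at h
    obtain ⟨y, -, rfl⟩ := h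
    exact hz y rfl))
  have hse : Perm.sign e = 1 := by rw [← ve_sign ψ, he]; exact hg.1
  have hl' : (0 : ℝ) < l := by exact_mod_cast hl
  obtain ⟨e', he'⟩ : ∃ e' : Alt m, (e' : Perm (Fin m)) = e :=
    ⟨⟨e, Perm.mem_alternatingGroup.2 hse⟩, rfl⟩
  have h1 := kz s (2 * l * ε) (by positivity) (cgap hl s ε hs) (vA ψ) v (q * η) (fun i => by
    obtain ⟨h2, h3⟩ := ha i
    exact h3) (by positivity) e'
  have e1 : 2 * √((l : ℝ) / (2 * l * ε)) = √(2 / ε) := by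
    have e1 : (2 : ℝ) = √(2 ^ 2) := by rw [Real.sqrt_sq]; norm_num
    nth_rewrite 1 [e1]
    rw [← Real.sqrt_mul (by norm_num)]
    congr 1
    field_simp
  rw [e1] at h1
  have hge : ((vA ψ e' : Alt n) : Perm (Fin n)) = g := by
    rw [← he, ← he']; rfl
  subst hge
  refine ⟨(vA ψ e').2, ?_⟩
  have h4 : ‖RR n (vA ψ e') v - v‖ ≤ ((C * q : ℕ) : ℝ) * η := by
    refine h1.trans ?_
    push_cast
    rw [mul_assoc (C : ℝ)]
    exact mul_le_mul_of_nonneg_right hC (by positivity)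
  exact h4

/-- from bounded generation of the alternating group of almost all points to the gap -/
theorem gap_of_large {k : ℕ} (hk : 1 ≤ k) (hn : 200 ≤ n) (z : Fin k → Alt n) (c : ℝ) (hc : 0 < c)
    (hgap : ∀ f : RC14.V 1 n, ∑ a, f a = 0 → c * ‖f‖ ^ 2 ≤ En (repA 1 n) z f) (D : ℕ)
    (hD : ∀ (v : FA n) (η : ℝ) (hη : 0 ≤ η), (∀ i, (dF v η hη).Q 1 (z i : Perm (Fin n))) →
      ∃ U : Finset (Fin n), 20 * #Uᶜ ≤ n ∧ Cov (dF v η hη) D U) :
    Expanding (3 / 4 / (2 / c + 2 * (D : ℝ) ^ 2) / (2 * k)) z := by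
  classical
  obtain ⟨c', hc'⟩ : ∃ c', c' = 3 / 4 / (2 / c + 2 * (D : ℝ) ^ 2) := ⟨_, rfl⟩
  have hc'0 : 0 < c' := by rw [hc']; positivity
  rw [← hc']
  -- the invariance
  have key : ∀ v : FA n, ∃ U : Finset (Fin n), 20 * #Uᶜ ≤ n ∧ ∀ g : Alt n,
      AU U (g : Perm (Fin n)) → ‖RR n g v - v‖ ^ 2 ≤ (D : ℝ) ^ 2 * En (RR n) z v := by
    intro v
    have hE : 0 ≤ En (RR n) z v := RC14.En_nonneg _ _ _
    obtain ⟨η, hη⟩ : ∃ η, η = √(En (RR n) z v) := ⟨_, rfl⟩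
    have hη0 : 0 ≤ η := by rw [hη]; positivity
    have hη2 : η ^ 2 = En (RR n) z v := by rw [hη, Real.sq_sqrt hE]
    obtain ⟨U, hU1, hU2⟩ := hD v η hη0 (fun i => ⟨(z i).2, by
      rw [Nat.cast_one, one_mul, hη]
      refine Real.le_sqrt_of_sq_le ?_
      unfold En
      exact Finset.single_le_sum (f := fun i => ‖RR n (z i) v - v‖ ^ 2)
        (fun i _ => by positivity) (Finset.mem_univ i)⟩)
    refine ⟨U, hU1, fun g hg => ?_⟩
    obtain ⟨h1, h2⟩ := hU2 (g : Perm (Fin n)) hg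
    have h3 : ‖RR n g v - v‖ ≤ D * η := h2
    calc ‖RR n g v - v‖ ^ 2 ≤ (D * η) ^ 2 := pow_le_pow_left₀ (norm_nonneg _) h3 2
      _ = _ := by rw [mul_pow, hη2]
  refine FRALL n (n / 20) k hk z c' hc'0 ?_ ?_
  · intro j hj1 hj2 f hf
    have hj3 : 20 * j ≤ n := by omega
    have hj4 : j + 2 ≤ n := by omega
    obtain ⟨κ, -⟩ : ∃ κ : Tup j n, True := ⟨Fin.castLEEmb (by omega), trivial⟩
    have hm := mult_pos (show j ≤ n by omega)
    obtain ⟨U, hU1, hU2⟩ := key (emb κ f)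
    have h1 := low z c hc (by omega) hgap hj1 hj3 f hf U hU1 ((D : ℝ) ^ 2) (by positivity)
      (by
        intro g hg
        have h2 := hU2 g hg
        rw [emb_RR, ← emb_sub, emb_norm hj4, emb_En hj4, mul_left_comm] at h2
        exact le_of_mul_le_mul_left h2 hm)
    rw [hc', div_mul_eq_mul_div, div_le_iff₀ (by positivity)]
    linarith
  · intro v hv
    obtain ⟨U, hU1, hU2⟩ := key v
    have hE : 0 ≤ En (RR n) z v := RC14.En_nonneg _ _ _
    -- the average over the alternating group of `U` vanishes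
    obtain ⟨A, hA⟩ : ∃ A : Finset (Alt n), ∀ g, g ∈ A ↔ AU U (g : Perm (Fin n)) :=
      ⟨univ.filter fun g : Alt n => AU U (g : Perm (Fin n)), fun g => by simp⟩
    have hA1 : (1 : Alt n) ∈ A := by
      rw [hA]; exact ⟨by simp, fun _ _ => rfl⟩
    have hAc : (#A : ℂ) ≠ 0 := by
      exact_mod_cast (Finset.card_pos.2 ⟨1, hA1⟩).ne'
    have hAc' : (0 : ℝ) < #A := by exact_mod_cast Finset.card_pos.2 ⟨1, hA1⟩
    obtain ⟨v', hv'⟩ : ∃ v' : FA n, v' = ∑ g ∈ A, RR n g v := ⟨_, rfl⟩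
    have hHH : v' ∈ HH (n / 20) n := by
      rw [hv']
      exact Submodule.sum_mem _ fun g _ => HH_inv _ n g v hv
    have hv'inv : ∀ g : Alt n, (∀ a ∈ Uᶜ, (g : Perm (Fin n)) a = a) → RR n g v' = v' := by
      intro g hg
      have hg' : AU U (g : Perm (Fin n)) :=
        ⟨Perm.mem_alternatingGroup.1 g.2, fun y hy => hg y (Finset.mem_compl.2 hy)⟩
      rw [hv', map_sum]
      refine Finset.sum_bij (fun h _ => g * h) ?_ ?_ ?_ ?_
      · intro h hh
        rw [hA] at hh ⊢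
        refine ⟨?_, fun y hy => ?_⟩
        · rw [Subgroup.coe_mul, Perm.sign_mul, hg'.1, hh.1, one_mul]
        · rw [Subgroup.coe_mul, Perm.mul_apply, hh.2 y hy, hg'.2 y hy]
      · intro h _ h' _ e
        exact mul_left_cancel e
      · intro h hh
        refine ⟨g⁻¹ * h, ?_, by group⟩
        rw [hA] at hh ⊢
        have hg'' := hg'.inv
        refine ⟨?_, fun y hy => ?_⟩
        · rw [Subgroup.coe_mul, Perm.sign_mul, hh.1, mul_one]
          exact hg''.1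
        · rw [Subgroup.coe_mul, Perm.mul_apply, hh.2 y hy]
          exact hg''.2 y hy
      · intro h _
        rw [map_mul]; rfl
    have hv'0 : v' = 0 := NOINV n (n / 20) v' hHH Uᶜ (by omega) hv'inv
    have h1 : ‖v‖ ≤ √((D : ℝ) ^ 2 * En (RR n) z v) := by
      have e1 : (#A : ℂ) • v = -∑ g ∈ A, (RR n g v - v) := by
        rw [Finset.sum_sub_distrib, ← hv', hv'0, Finset.sum_const, zero_sub, neg_neg,
          ← Nat.cast_smul_eq_nsmul ℂ]
      have e2 : (#A : ℝ) * ‖v‖ ≤ #A * √((D : ℝ) ^ 2 * En (RR n) z v) := by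
        have e3 : (#A : ℝ) * ‖v‖ = ‖(#A : ℂ) • v‖ := by
          rw [norm_smul, Complex.norm_natCast]
        rw [e3, e1, norm_neg]
        refine (norm_sum_le _ _).trans ?_
        refine (Finset.sum_le_card_nsmul _ _ (√((D : ℝ) ^ 2 * En (RR n) z v)) fun g hg =>
          ?_).trans (le_of_eq ?_)
        · exact Real.le_sqrt_of_sq_le (hU2 g ((hA g).1 hg))
        · rw [nsmul_eq_mul]
      exact le_of_mul_le_mul_left e2 hAc'
    have h2 : ‖v‖ ^ 2 ≤ (D : ℝ) ^ 2 * En (RR n) z v := by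
      calc ‖v‖ ^ 2 ≤ (√((D : ℝ) ^ 2 * En (RR n) z v)) ^ 2 :=
            pow_le_pow_left₀ (norm_nonneg _) h1 2
        _ = _ := Real.sq_sqrt (by positivity)
    rw [hc', div_mul_eq_mul_div, div_le_iff₀ (by positivity)]
    have h3 : 0 ≤ 2 / c * En (RR n) z v := by positivity
    have h4 : 0 ≤ ‖v‖ ^ 2 := by positivity
    nlinarith

/-- the main theorem, with pairs -/
theorem main_pairs (k l q : ℕ) (hk : 1 ≤ k) (hl : 1 ≤ l) (ε δ : ℝ) (hε : 0 < ε) (hδ : 0 < δ) :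
    ∃ ε' : ℝ, 0 < ε' ∧ ∃ n₀ : ℕ, ∀ n ≥ n₀, ∀ x : Fin k → Alt n, GapOn 2 ε x →
    ∀ (m : ℕ), δ * n ≤ m → ∀ (ψ : Fin m ↪ Fin n) (s : Fin l → Alt m), Expanding ε s →
    (∀ i, ∃ w : List (Alt n), w.length ≤ q ∧ (∀ y ∈ w, ∃ i, y = x i ∨ y = (x i)⁻¹) ∧
      w.prod = vA ψ (s i)) → Expanding ε' x := by
  have hk' : (1 : ℝ) ≤ k := by exact_mod_cast hk
  obtain ⟨c, hc⟩ : ∃ c : ℝ, c = min (2 * k * ε) 1 := ⟨_, rfl⟩
  have hc0 : 0 < c := by rw [hc]; positivity
  have hc1 : c ≤ 1 := by rw [hc]; exact min_le_right _ _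
  have hc2 : c ≤ 2 * k * ε := by rw [hc]; exact min_le_left _ _
  obtain ⟨φ, N₀, hgrow⟩ := grow_pairs k hk c hc0 hc1 δ (1 / 20) hδ (by norm_num)
  obtain ⟨C, hC⟩ : ∃ C : ℕ, √(2 / ε) ≤ C := exists_nat_ge _
  obtain ⟨D, hD⟩ : ∃ D, D = φ (C * q) := ⟨_, rfl⟩
  refine ⟨3 / 4 / (2 / c + 2 * (D : ℝ) ^ 2) / (2 * k), by positivity, max N₀ 200,
    fun n hn x hx m hm ψ s hs hw => ?_⟩
  have hn1 : N₀ ≤ n := (le_max_left _ _).trans hn
  have hn2 : 200 ≤ n := (le_max_right _ _).trans hn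
  have hgap : ∀ f : RC14.V 2 n, ∑ a, f a = 0 → c * ‖f‖ ^ 2 ≤ En (repA 2 n) x f := by
    intro f hf
    refine le_trans ?_ (gap_complex hk x ε hx f hf)
    exact mul_le_mul_of_nonneg_right hc2 (by positivity)
  refine gap_of_large hk hn2 x c hc0 (gap_one (by omega) x c hgap) D fun v η hη hv => ?_
  have hcov := cov_local hl ψ s ε hε hs q C hC v η hη (fun i => by
    obtain ⟨w, h1, h2, h3⟩ := hw i
    rw [← h3]
    exact (dF v η hη).mono h1 (Q_word _ x hv w h2))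
  obtain ⟨U, hU1, hU2⟩ := hgrow n hn1 x hgap (dF v η hη) hv (univ.map ψ) (C * q) (by
    rw [Finset.card_map, Finset.card_univ, Fintype.card_fin]; exact hm) hcov
  refine ⟨U, ?_, by rw [hD]; exact hU2⟩
  have h1 : #U + #Uᶜ = n := by rw [Finset.card_add_card_compl, Fintype.card_fin]
  have h2 : (#U : ℝ) + #Uᶜ = n := by exact_mod_cast h1
  have h3 : (20 : ℝ) * #Uᶜ ≤ n := by linarith
  exact_mod_cast h3

/-- the main theorem, with points -/
theorem main_points (k l q : ℕ) (hk : 1 ≤ k) (hl : 1 ≤ l) (ε δ : ℝ) (hε : 0 < ε) (hδ : 0 < δ) :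
    ∃ ε' : ℝ, 0 < ε' ∧ ∃ n₀ : ℕ, ∀ n ≥ n₀, ∀ x : Fin k → Alt n, GapOn 1 ε x →
    ∀ (m : ℕ), (1 / 2 + δ) * n ≤ m → ∀ (ψ : Fin m ↪ Fin n) (s : Fin l → Alt m), Expanding ε s →
    (∀ i, ∃ w : List (Alt n), w.length ≤ q ∧ (∀ y ∈ w, ∃ i, y = x i ∨ y = (x i)⁻¹) ∧
      w.prod = vA ψ (s i)) → Expanding ε' x := by
  have hk' : (1 : ℝ) ≤ k := by exact_mod_cast hk
  obtain ⟨c, hc⟩ : ∃ c : ℝ, c = 2 * k * ε := ⟨_, rfl⟩
  have hc0 : 0 < c := by rw [hc]; positivity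
  obtain ⟨φ, N₀, hgrow⟩ := grow_points k hk c hc0 δ (1 / 20) hδ (by norm_num)
  obtain ⟨C, hC⟩ : ∃ C : ℕ, √(2 / ε) ≤ C := exists_nat_ge _
  obtain ⟨D, hD⟩ : ∃ D, D = φ (C * q) := ⟨_, rfl⟩
  refine ⟨3 / 4 / (2 / c + 2 * (D : ℝ) ^ 2) / (2 * k), by positivity, max N₀ 200,
    fun n hn x hx m hm ψ s hs hw => ?_⟩
  have hn1 : N₀ ≤ n := (le_max_left _ _).trans hn
  have hn2 : 200 ≤ n := (le_max_right _ _).trans hn
  have hgap : ∀ f : RC14.V 1 n, ∑ a, f a = 0 → c * ‖f‖ ^ 2 ≤ En (repA 1 n) x f := by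
    intro f hf
    rw [hc]
    exact gap_complex hk x ε hx f hf
  refine gap_of_large hk hn2 x c hc0 hgap D fun v η hη hv => ?_
  have hcov := cov_local hl ψ s ε hε hs q C hC v η hη (fun i => by
    obtain ⟨w, h1, h2, h3⟩ := hw i
    rw [← h3]
    exact (dF v η hη).mono h1 (Q_word _ x hv w h2))
  obtain ⟨U, hU1, hU2⟩ := hgrow n hn1 x hgap (dF v η hη) hv (univ.map ψ) (C * q) (by
    rw [Finset.card_map, Finset.card_univ, Fintype.card_fin]; exact hm) hcov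
  refine ⟨U, ?_, by rw [hD]; exact hU2⟩
  have h1 : #U + #Uᶜ = n := by rw [Finset.card_add_card_compl, Fintype.card_fin]
  have h2 : (#U : ℝ) + #Uᶜ = n := by exact_mod_cast h1
  have h3 : (20 : ℝ) * #Uᶜ ≤ n := by linarith
  exact_mod_cast h3

end Main

end

end Pool.Agent.K1H7.LG
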