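import Pool.Agent.K1H7.LG.Words

/-!
Two translates of a set by short words with a proper intersection, and the growth of the sets whose
alternating group is boundedly generated.
-/

set_option autoImplicit false

namespace Pool.Agent.K1H7.LG
open RC14 Pool.Agent.K1H7.EP Pool.Agent.K1H7.LE Finset Equiv
open scoped InnerProductSpace ComplexConjugate

noncomputable section

variable {n : ℕ}

open Classical in
/-- the indicator function of the pairs in `T` -/
def I2 (T : Finset (Fin n)) (a : Tup 2 n) : ℝ := if ∀ l, a l ∈ T then 1 else 0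

lemma I2_sum (T : Finset (Fin n)) : ∑ a, I2 T a = (#T : ℝ) * (#T - 1) := by
  classical
  obtain ⟨ψ, hψ⟩ : ∃ ψ : Fin #T ↪ Fin n, ∀ x, x ∈ Set.range ψ ↔ x ∈ T := by
    refine ⟨(T.orderEmbOfFin rfl).toEmbedding, fun x => ?_⟩
    have := Finset.range_orderEmbOfFin T rfl
    rw [Set.ext_iff] at this
    exact this x
  have h1 := card_in (j := 2) ψ
  have h2 : ∑ a, I2 T a = ((#T).descFactorial 2 : ℝ) := by
    rw [← h1]
    unfold I2
    rw [Finset.sum_ite, Finset.sum_const_zero, add_zero, Finset.sum_const, nsmul_eq_mul, mul_one]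
    congr 2
    ext a
    simp only [Finset.mem_filter, Finset.mem_univ, true_and, hψ]
  rw [h2]
  rcases Nat.eq_zero_or_pos #T with h | h
  · rw [h]; simp
  · rw [Nat.descFactorial_succ, Nat.descFactorial_one, Nat.cast_mul, Nat.cast_sub h]
    push_cast; ring

lemma I2_mul (S T : Finset (Fin n)) (a : Tup 2 n) : I2 S a * I2 T a = I2 (S ∩ T) a := by
  unfold I2
  by_cases h1 : ∀ l, a l ∈ S
  · by_cases h2 : ∀ l, a l ∈ T
    · rw [if_pos h1, if_pos h2, if_pos fun l => Finset.mem_inter.2 ⟨h1 l, h2 l⟩]; norm_num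
    · rw [if_neg h2, if_neg fun (h : ∀ l, a l ∈ S ∩ T) => h2 fun l => (Finset.mem_inter.1 (h l)).2]
      norm_num
  · rw [if_neg h1, if_neg fun (h : ∀ l, a l ∈ S ∩ T) => h1 fun l => (Finset.mem_inter.1 (h l)).1]
    norm_num

lemma I2_image (T : Finset (Fin n)) (g : Perm (Fin n)) (a : Tup 2 n) :
    I2 (T.image g) a = I2 T (mv g⁻¹ a) := by
  unfold I2
  have : (∀ l, a l ∈ T.image g) ↔ ∀ l, mv g⁻¹ a l ∈ T := by
    refine forall_congr' fun l => ?_
    rw [Finset.mem_image, mv_apply]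
    constructor
    · rintro ⟨x, hx, hxa⟩
      have e : g⁻¹ (g x) = x := g.symm_apply_apply x
      rw [← hxa, e]; exact hx
    · intro h
      exact ⟨_, h, g.apply_symm_apply _⟩
  simp only [this]

lemma card_tup2 (hn : 2 ≤ n) : (Fintype.card (Tup 2 n) : ℝ) = (n : ℝ) * (n - 1) := by
  rw [card_tup, Nat.descFactorial_succ, Nat.descFactorial_one, Nat.cast_mul,
    Nat.cast_sub (by omega)]
  push_cast; ring

/-- the second moment -/
theorem second {k : ℕ} (hn : 2 ≤ n) (ι : Type) [Fintype ι] (g : ι → Alt n) (c : ℝ) (M : ℕ)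
    (hg : ∀ u : RC14.V 2 n, ∑ a, u a = 0 →
        ‖∑ i, repA 2 n (g i) u‖ ≤ Fintype.card ι * th c k ^ M * ‖u‖) (U : Finset (Fin n)) :
    ∑ i, ∑ i', ((#(U.image (g i : Perm (Fin n)) ∩ U.image (g i' : Perm (Fin n))) : ℝ) *
      (#(U.image (g i : Perm (Fin n)) ∩ U.image (g i' : Perm (Fin n))) - 1)) ≤
      (Fintype.card ι : ℝ) ^ 2 * ((th c k ^ M) ^ 2 * (n : ℝ) ^ 2 + (#U : ℝ) ^ 4 / (n : ℝ) ^ 2) := by
  classical
  obtain ⟨I, hI⟩ : ∃ I : ℝ, I = Fintype.card ι := ⟨_, rfl⟩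
  obtain ⟨N, hN⟩ : ∃ N : ℝ, N = Fintype.card (Tup 2 n) := ⟨_, rfl⟩
  obtain ⟨D, hD⟩ : ∃ D : ℝ, D = (#U : ℝ) * (#U - 1) := ⟨_, rfl⟩
  have hnR : (2 : ℝ) ≤ n := by exact_mod_cast hn
  have hN' : N = (n : ℝ) * (n - 1) := by rw [hN, card_tup2 hn]
  have hNp : 0 < N := by rw [hN']; apply mul_pos <;> linarith
  have hUn : (#U : ℝ) ≤ n := by
    have := Finset.card_le_univ U
    rw [Fintype.card_fin] at this
    exact_mod_cast this
  have hU0 : (0 : ℝ) ≤ #U := Nat.cast_nonneg _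
  have hD0 : 0 ≤ D := by rw [hD, ← I2_sum]; exact Finset.sum_nonneg fun a _ => by
                            unfold I2; split_ifs <;> norm_num
  have hDn : D ≤ (n : ℝ) ^ 2 := by rw [hD]; nlinarith
  obtain ⟨μ, hμ⟩ : ∃ μ : ℝ, μ = D / N := ⟨_, rfl⟩
  obtain ⟨u, hu⟩ : ∃ u : RC14.V 2 n, u = WithLp.toLp 2 fun a => ((I2 U a - μ : ℝ) : ℂ) := ⟨_, rfl⟩
  have hua : ∀ a, u a = ((I2 U a - μ : ℝ) : ℂ) := by intro a; rw [hu]
  have hcard : ∑ _a : Tup 2 n, μ = N * μ := by
    rw [Finset.sum_const, Finset.card_univ, nsmul_eq_mul, ← hN]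
  have hNμ : N * μ = D := by rw [hμ]; field_simp
  have hu0 : ∑ a, u a = 0 := by
    rw [Finset.sum_congr rfl fun a _ => hua a, ← Complex.ofReal_sum, Finset.sum_sub_distrib,
      hcard, hNμ, I2_sum, ← hD, sub_self, Complex.ofReal_zero]
  have hnorm : ‖u‖ ^ 2 ≤ (n : ℝ) ^ 2 := by
    rw [EuclideanSpace.norm_sq_eq]
    have e1 : ∀ a, ‖u a‖ ^ 2 = I2 U a * I2 U a - 2 * μ * I2 U a + μ * μ := by
      intro a
      rw [hua, Complex.norm_real, Real.norm_eq_abs, sq_abs]; ring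
    have e2 : ∑ _a : Tup 2 n, μ * μ = N * (μ * μ) := by
      rw [Finset.sum_const, Finset.card_univ, nsmul_eq_mul, ← hN]
    have e3 : ∀ a, I2 U a * I2 U a = I2 U a := fun a => by rw [I2_mul, Finset.inter_self]
    rw [Finset.sum_congr rfl fun a _ => e1 a, Finset.sum_add_distrib, Finset.sum_sub_distrib,
      ← Finset.mul_sum, e2, Finset.sum_congr rfl fun a _ => e3 a, I2_sum, ← hD]
    have e4 : N * (μ * μ) = μ * D := by rw [← mul_assoc, hNμ, mul_comm]
    have e5 : 0 ≤ μ * D := by rw [hμ]; positivity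
    linarith
  have key := hg u hu0
  obtain ⟨w, hw⟩ : ∃ w, w = ∑ i, repA 2 n (g i) u := ⟨_, rfl⟩
  rw [← hw, ← hI] at key
  obtain ⟨Y, hY⟩ : ∃ Y : Tup 2 n → ℝ, Y = fun a => ∑ i, I2 (U.image (g i : Perm (Fin n))) a :=
    ⟨_, rfl⟩
  have hwa : ∀ a, w a = ((Y a - I * μ : ℝ) : ℂ) := by
    intro a
    rw [hw, WithLp.ofLp_sum, Finset.sum_apply]
    have e1 : ∀ i, (repA 2 n (g i) u) a =
        ((I2 (U.image (g i : Perm (Fin n))) a - μ : ℝ) : ℂ) := by
      intro i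
      rw [repA_apply, hua, I2_image]
    rw [Finset.sum_congr rfl fun i _ => e1 i, ← Complex.ofReal_sum, Finset.sum_sub_distrib,
      Finset.sum_const, Finset.card_univ, nsmul_eq_mul, ← hI, hY]
  have hYs : ∑ a, Y a = I * D := by
    rw [hY, Finset.sum_comm]
    have e1 : ∀ i, ∑ a, I2 (U.image (g i : Perm (Fin n))) a = D := by
      intro i
      rw [I2_sum, Finset.card_image_of_injective _ (Equiv.injective _), hD]
    rw [Finset.sum_congr rfl fun i _ => e1 i, Finset.sum_const, Finset.card_univ, nsmul_eq_mul,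
      ← hI]
  have hw2 : ‖w‖ ^ 2 = ∑ a, Y a ^ 2 - I ^ 2 * D ^ 2 / N := by
    rw [EuclideanSpace.norm_sq_eq]
    have e1 : ∀ a, ‖w a‖ ^ 2 = Y a ^ 2 - 2 * (I * μ) * Y a + (I * μ) ^ 2 := by
      intro a
      rw [hwa, Complex.norm_real, Real.norm_eq_abs, sq_abs]; ring
    rw [Finset.sum_congr rfl fun a _ => e1 a, Finset.sum_add_distrib, Finset.sum_sub_distrib,
      ← Finset.mul_sum, hYs, Finset.sum_const, Finset.card_univ, nsmul_eq_mul, ← hN, hμ]
    field_simp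
    ring
  have hYY : ∑ a, Y a ^ 2 = ∑ i, ∑ i',
      ((#(U.image (g i : Perm (Fin n)) ∩ U.image (g i' : Perm (Fin n))) : ℝ) *
      (#(U.image (g i : Perm (Fin n)) ∩ U.image (g i' : Perm (Fin n))) - 1)) := by
    have e1 : ∀ a, Y a ^ 2 = ∑ i, ∑ i', I2 (U.image (g i : Perm (Fin n)) ∩
        U.image (g i' : Perm (Fin n))) a := by
      intro a
      rw [hY]
      simp only []
      rw [pow_two, Finset.sum_mul_sum]
      refine Finset.sum_congr rfl fun i _ => Finset.sum_congr rfl fun i' _ => ?_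
      rw [I2_mul]
    rw [Finset.sum_congr rfl fun a _ => e1 a, Finset.sum_comm]
    refine Finset.sum_congr rfl fun i _ => ?_
    rw [Finset.sum_comm]
    refine Finset.sum_congr rfl fun i' _ => ?_
    rw [I2_sum]
  rw [← hYY, ← hI]
  have h1 : ‖w‖ ^ 2 ≤ I ^ 2 * ((th c k ^ M) ^ 2 * (n : ℝ) ^ 2) := by
    calc ‖w‖ ^ 2 ≤ (I * th c k ^ M * ‖u‖) ^ 2 := pow_le_pow_left₀ (norm_nonneg _) key 2
      _ = I ^ 2 * ((th c k ^ M) ^ 2 * ‖u‖ ^ 2) := by ring
      _ ≤ _ := by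
        apply mul_le_mul_of_nonneg_left _ (by positivity)
        exact mul_le_mul_of_nonneg_left hnorm (by positivity)
  have h2 : D ^ 2 / N ≤ (#U : ℝ) ^ 4 / (n : ℝ) ^ 2 := by
    rw [hN', hD, div_le_div_iff₀ (by apply mul_pos <;> linarith) (by positivity)]
    -- (u (u-1))^2 n^2 ≤ u^4 n (n-1)
    obtain ⟨v, hv⟩ : ∃ v : ℝ, v = #U := ⟨_, rfl⟩
    rw [← hv] at hUn hU0 ⊢
    rw [← hv] at hD
    rcases Nat.eq_zero_or_pos #U with h | h
    · have : v = 0 := by rw [hv, h]; simp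
      rw [this]; simp
    have hv1 : (1 : ℝ) ≤ v := by rw [hv]; exact_mod_cast h
    have e1 : (v - 1) * n ≤ v * (n - 1) := by nlinarith
    have e2 : (v - 1) * ((v - 1) * n) ≤ v * (v * (n - 1)) := by
      apply mul_le_mul (by linarith) e1
      · apply mul_nonneg <;> linarith
      · linarith
    have e3 : 0 ≤ v ^ 2 * n := by positivity
    have e4 := mul_le_mul_of_nonneg_left e2 e3
    calc _ = v ^ 2 * n * ((v - 1) * ((v - 1) * n)) := by ring
      _ ≤ _ := e4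
      _ = _ := by ring
  have h3 : I ^ 2 * D ^ 2 / N ≤ I ^ 2 * ((#U : ℝ) ^ 4 / (n : ℝ) ^ 2) := by
    rw [mul_div_assoc]
    exact mul_le_mul_of_nonneg_left h2 (by positivity)
  have h4 : ∑ a, Y a ^ 2 = ‖w‖ ^ 2 + I ^ 2 * D ^ 2 / N := by rw [hw2]; ring
  rw [h4, mul_add]
  linarith

/-- the first moment -/
lemma first (hn : 1 ≤ n) (ι : Type) [Fintype ι] (g : ι → Alt n) (U : Finset (Fin n)) :
    (Fintype.card ι : ℝ) ^ 2 * ((#U : ℝ) ^ 2 / n) ≤
    ∑ i, ∑ i', (#(U.image (g i : Perm (Fin n)) ∩ U.image (g i' : Perm (Fin n))) : ℝ) := by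
  classical
  have hn' : (0 : ℝ) < n := by exact_mod_cast hn
  obtain ⟨X, hX⟩ : ∃ X : ι → Fin n → ℝ, ∀ i p, X i p =
    if p ∈ U.image (g i : Perm (Fin n)) then (1 : ℝ) else 0 := ⟨_, fun _ _ => rfl⟩
  have h1 : ∀ i i', (#(U.image (g i : Perm (Fin n)) ∩ U.image (g i' : Perm (Fin n))) : ℝ) =
      ∑ p, X i p * X i' p := by
    intro i i'
    have e : ∀ p, X i p * X i' p = if p ∈ U.image (g i : Perm (Fin n)) ∩
        U.image (g i' : Perm (Fin n)) then (1 : ℝ) else 0 := by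
      intro p
      rw [hX, hX]
      simp only [Finset.mem_inter]
      by_cases h1 : p ∈ U.image (g i : Perm (Fin n)) <;>
        by_cases h2 : p ∈ U.image (g i' : Perm (Fin n)) <;> simp [h1, h2]
    rw [Finset.sum_congr rfl fun p _ => e p, Finset.sum_ite_mem, Finset.univ_inter,
      Finset.sum_const, nsmul_eq_mul, mul_one]
  have h2 : ∑ i, ∑ i', (#(U.image (g i : Perm (Fin n)) ∩ U.image (g i' : Perm (Fin n))) : ℝ) =
      ∑ p, (∑ i, X i p) ^ 2 := by
    rw [Finset.sum_congr rfl fun i _ => Finset.sum_congr rfl fun i' _ => h1 i i']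
    have e : ∀ p, (∑ i, X i p) ^ 2 = ∑ i, ∑ i', X i p * X i' p := by
      intro p; rw [pow_two, Finset.sum_mul_sum]
    symm
    rw [Finset.sum_congr rfl fun p _ => e p, Finset.sum_comm]
    refine Finset.sum_congr rfl fun i _ => ?_
    rw [Finset.sum_comm]
  have h3 : ∑ p, ∑ i, X i p = Fintype.card ι * #U := by
    rw [Finset.sum_comm]
    have e : ∀ i, ∑ p, X i p = #U := by
      intro i
      rw [Finset.sum_congr rfl fun p _ => hX i p, Finset.sum_ite_mem, Finset.univ_inter, Finset.sum_const, nsmul_eq_mul, mul_one,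
        Finset.card_image_of_injective _ (Equiv.injective _)]
    rw [Finset.sum_congr rfl fun i _ => e i, Finset.sum_const, Finset.card_univ, nsmul_eq_mul]
  have h4 := sq_sum_le_card_mul_sum_sq (s := (univ : Finset (Fin n))) (f := fun p => ∑ i, X i p)
  rw [h3, Finset.card_univ, Fintype.card_fin] at h4
  rw [h2, ← mul_div_assoc, div_le_iff₀ hn']
  linarith

/-- two translates with a proper intersection -/
theorem overlap {k : ℕ} (hn : 2 ≤ n) (ι : Type) [Fintype ι] [Nonempty ι] (g : ι → Alt n)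
    (c : ℝ) (M : ℕ)
    (hg : ∀ u : RC14.V 2 n, ∑ a, u a = 0 →
        ‖∑ i, repA 2 n (g i) u‖ ≤ Fintype.card ι * th c k ^ M * ‖u‖) (U : Finset (Fin n))
    (α : ℝ) (hα : (#U : ℝ) = α * n) (τ : ℝ) (hτ : 0 ≤ τ) (hτα : τ ≤ α)
    (hnum : 2 * τ + (th c k ^ M) ^ 2 + 1 / n < α ^ 3 * (1 - α)) :
    ∃ i i', τ * n < #(U.image (g i : Perm (Fin n)) ∩ U.image (g i' : Perm (Fin n))) ∧
      (#(U.image (g i : Perm (Fin n)) ∩ U.image (g i' : Perm (Fin n))) : ℝ) < #U - τ * n := by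
  classical
  by_contra hcon
  push Not at hcon
  have hnR : (2 : ℝ) ≤ n := by exact_mod_cast hn
  have hn0 : (0 : ℝ) < n := by linarith
  have hUn : (#U : ℝ) ≤ n := by
    have := Finset.card_le_univ U
    rw [Fintype.card_fin] at this
    exact_mod_cast this
  have hα1 : α ≤ 1 := by
    rw [hα] at hUn
    exact le_of_mul_le_mul_right (by linarith) hn0
  have hα0 : 0 ≤ α := hτ.trans hτα
  have h1 := first (by omega) ι g U
  have h2 := second hn ι g c M hg U
  obtain ⟨I, hI⟩ : ∃ I : ℝ, I = Fintype.card ι := ⟨_, rfl⟩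
  have hI0 : 0 < I := by rw [hI]; exact_mod_cast Fintype.card_pos
  rw [← hI] at h1 h2
  obtain ⟨x, hx⟩ : ∃ x : ι → ι → ℝ, ∀ i i', x i i' =
    (#(U.image (g i : Perm (Fin n)) ∩ U.image (g i' : Perm (Fin n))) : ℝ) :=
    ⟨_, fun _ _ => rfl⟩
  have hx0 : ∀ i i', 0 ≤ x i i' := fun i i' => by rw [hx]; positivity
  have hxn : ∀ i i', x i i' ≤ n := by
    intro i i'
    rw [hx]
    have := Finset.card_le_univ (U.image (g i : Perm (Fin n)) ∩ U.image (g i' : Perm (Fin n)))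
    rw [Fintype.card_fin] at this
    exact_mod_cast this
  simp only [← hx] at h1 h2 hcon
  -- the pointwise inequality
  have h3 : ∀ i i', (α - τ) * n * (x i i' - τ * n) ≤ x i i' ^ 2 := by
    intro i i'
    by_cases h : τ * n < x i i'
    · have h4 := hcon i i' h
      rw [hα] at h4
      have e1 : (α - τ) * n ≤ x i i' := by linarith
      have e2 : 0 ≤ x i i' - τ * n := by linarith
      have e3 := mul_le_mul_of_nonneg_right e1 e2
      have e4 : x i i' * (x i i' - τ * n) ≤ x i i' ^ 2 := by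
        have : 0 ≤ x i i' * (τ * n) := mul_nonneg (hx0 i i') (by positivity)
        nlinarith
      linarith
    · push Not at h
      have e1 : (α - τ) * n * (x i i' - τ * n) ≤ 0 := by
        apply mul_nonpos_of_nonneg_of_nonpos
        · apply mul_nonneg <;> linarith
        · linarith
      have := sq_nonneg (x i i')
      linarith
  have h4 : ∑ i, ∑ i', (α - τ) * n * (x i i' - τ * n) ≤ ∑ i, ∑ i', x i i' ^ 2 :=
    Finset.sum_le_sum fun i _ => Finset.sum_le_sum fun i' _ => h3 i i'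
  have h5 : ∑ i, ∑ i', (α - τ) * n * (x i i' - τ * n) =
      (α - τ) * n * (∑ i, ∑ i', x i i' - I ^ 2 * (τ * n)) := by
    simp only [← Finset.mul_sum, Finset.sum_sub_distrib, Finset.sum_const, Finset.card_univ,
      nsmul_eq_mul]
    rw [← hI]; ring
  have h6 : ∑ i, ∑ i', x i i' ^ 2 = ∑ i, ∑ i', (x i i' * (x i i' - 1)) + ∑ i, ∑ i', x i i' := by
    rw [← Finset.sum_add_distrib]
    refine Finset.sum_congr rfl fun i _ => ?_
    rw [← Finset.sum_add_distrib]
    refine Finset.sum_congr rfl fun i' _ => ?_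
    ring
  have h7 : ∑ i, ∑ i', x i i' ≤ I ^ 2 * n := by
    calc ∑ i, ∑ i', x i i' ≤ ∑ _i : ι, ∑ _i' : ι, (n : ℝ) :=
          Finset.sum_le_sum fun i _ => Finset.sum_le_sum fun i' _ => hxn i i'
      _ = _ := by
        simp only [Finset.sum_const, Finset.card_univ, nsmul_eq_mul]
        rw [← hI]; ring
  rw [hα] at h1 h2
  have h8 : I ^ 2 * ((α * n) ^ 2 / n) = I ^ 2 * (α ^ 2 * n) := by field_simp
  have h9 : (α * (n : ℝ)) ^ 4 / (n : ℝ) ^ 2 = α ^ 4 * n ^ 2 := by field_simp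
  rw [h8] at h1
  rw [h9] at h2
  have h10 : (α - τ) * n * (I ^ 2 * (α ^ 2 * n) - I ^ 2 * (τ * n)) ≤
      I ^ 2 * ((th c k ^ M) ^ 2 * (n : ℝ) ^ 2 + α ^ 4 * n ^ 2) + I ^ 2 * n := by
    have e1 : (α - τ) * n * (I ^ 2 * (α ^ 2 * n) - I ^ 2 * (τ * n)) ≤
        (α - τ) * n * (∑ i, ∑ i', x i i' - I ^ 2 * (τ * n)) := by
      apply mul_le_mul_of_nonneg_left _ (mul_nonneg (by linarith) hn0.le)
      linarith
    linarith
  have h11 : I ^ 2 * n ^ 2 * ((α - τ) * (α ^ 2 - τ)) ≤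
      I ^ 2 * n ^ 2 * ((th c k ^ M) ^ 2 + α ^ 4 + 1 / n) := by
    calc _ = (α - τ) * n * (I ^ 2 * (α ^ 2 * n) - I ^ 2 * (τ * n)) := by ring
      _ ≤ _ := h10
      _ = _ := by field_simp
  have h12 := le_of_mul_le_mul_left h11 (by positivity)
  have h13 : α ^ 3 - 2 * τ ≤ (α - τ) * (α ^ 2 - τ) := by nlinarith [mul_nonneg hα0 hτ]
  have h14 : α ^ 3 * (1 - α) = α ^ 3 - α ^ 4 := by ring
  rw [h14] at hnum
  linarith

variable {F : Filt (Perm (Fin n))}

/-- joining with a translate -/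
theorem join_step (U : Finset (Fin n)) (C r : ℕ) (hC : Cov F C U) (x : Perm (Fin n))
    (hx : F.Q r x) (b : ℕ) (hb : 2 ≤ b) (h1 : b ≤ #(U ∩ U.image x)) (h2 : b ≤ #(U.image x \ U)) :
    ∃ U' : Finset (Fin n), U ⊆ U' ∧ #U + b ≤ #U' ∧ Cov F (3 * C + 2 * r) U' := by
  classical
  obtain ⟨D, hD1, hD2⟩ := Finset.exists_subset_card_eq h2
  obtain ⟨W, hW⟩ : ∃ W, W = (U ∩ U.image x) ∪ D := ⟨_, rfl⟩
  have hWs : W ⊆ U.image x := by
    rw [hW]
    exact Finset.union_subset Finset.inter_subset_right (hD1.trans Finset.sdiff_subset)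
  have hWd : W \ U = D := by
    rw [hW]
    ext y
    simp only [Finset.mem_sdiff, Finset.mem_union, Finset.mem_inter]
    constructor
    · rintro ⟨h | h, h'⟩
      · exact absurd h.1 h'
      · exact h
    · intro h
      exact ⟨Or.inr h, (Finset.mem_sdiff.1 (hD1 h)).2⟩
  have hWi : U ∩ U.image x ⊆ U ∩ W := by
    intro y hy
    rw [Finset.mem_inter]
    refine ⟨(Finset.mem_inter.1 hy).1, ?_⟩
    rw [hW]; exact Finset.mem_union_left _ hy
  have hc1 : b ≤ #(U ∩ W) := h1.trans (Finset.card_le_card hWi)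
  have hCW : Cov F (C + 2 * r) W := (hC.conj hx).sub hWs
  have h3 := hC.join hCW (by rw [hWd, hD2]; exact hc1) (hb.trans hc1)
  refine ⟨U ∪ W, Finset.subset_union_left, ?_, h3.up (by omega)⟩
  have e : U ∪ W = U ∪ (W \ U) := by rw [Finset.union_sdiff_self_eq_union]
  rw [e, Finset.card_union_of_disjoint Finset.disjoint_sdiff, hWd, hD2]

end

end Pool.Agent.K1H7.LG
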