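import Pool.Agent.K1H7.LG.Grow

/-!
Growth of the boundedly generated alternating subgroups up to almost all points.
-/

set_option autoImplicit false

namespace Pool.Agent.K1H7.LG
open RC14 Pool.Agent.K1H7.EP Pool.Agent.K1H7.LE Finset Equiv
open scoped InnerProductSpace ComplexConjugate

noncomputable section

variable {n : ℕ}

/-- the constants -/
def it (r : ℕ) : ℕ → ℕ → ℕ
  | 0, C => C
  | t + 1, C => 3 * it r t C + r

theorem iterate {F : Filt (Perm (Fin n))} (α₀ κ τ : ℝ) (hτ : 0 ≤ τ) (r : ℕ)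
    (hstep : ∀ (U : Finset (Fin n)) (C : ℕ), α₀ * n ≤ #U → (#U : ℝ) < (1 - κ) * n → Cov F C U →
      ∃ U' : Finset (Fin n), (#U : ℝ) + τ * n ≤ #U' ∧ Cov F (3 * C + r) U') (t : ℕ) :
    ∀ (U : Finset (Fin n)) (C : ℕ), α₀ * n ≤ #U → Cov F C U →
      ∃ U' : Finset (Fin n), α₀ * n ≤ #U' ∧ Cov F (it r t C) U' ∧
        ((1 - κ) * n ≤ #U' ∨ (#U : ℝ) + t * (τ * n) ≤ #U') := by
  intro U C hU hC
  induction t with
  | zero => exact ⟨U, hU, hC, Or.inr (by simp)⟩
  | succ t ih =>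
    obtain ⟨U1, h1, h2, h3⟩ := ih
    by_cases h4 : (1 - κ) * n ≤ #U1
    · exact ⟨U1, h1, h2.up (by show it r t C ≤ 3 * it r t C + r; omega), Or.inl h4⟩
    · push Not at h4
      obtain ⟨U2, h5, h6⟩ := hstep U1 _ h1 h4 h2
      have h7 : 0 ≤ τ * n := by positivity
      refine ⟨U2, by linarith, h6, Or.inr ?_⟩
      rcases h3 with h3 | h3
      · linarith
      · push_cast; linarith

/-- growth with the gap on pairs -/
theorem grow_pairs (k : ℕ) (hk : 1 ≤ k) (c : ℝ) (hc : 0 < c) (hc1 : c ≤ 1) (α₀ κ : ℝ)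
    (hα : 0 < α₀) (hκ : 0 < κ) : ∃ (φ : ℕ → ℕ) (N₀ : ℕ), ∀ n ≥ N₀, ∀ z : Fin k → Alt n,
    (∀ f : RC14.V 2 n, ∑ a, f a = 0 → c * ‖f‖ ^ 2 ≤ En (repA 2 n) z f) →
    ∀ (F : Filt (Perm (Fin n))), (∀ i, F.Q 1 (z i : Perm (Fin n))) →
    ∀ (U : Finset (Fin n)) (C : ℕ), α₀ * n ≤ #U → Cov F C U →
      ∃ U' : Finset (Fin n), (1 - κ) * n ≤ #U' ∧ Cov F (φ C) U' := by
  have hk' : (1 : ℝ) ≤ k := by exact_mod_cast hk
  obtain ⟨β, hβ⟩ : ∃ β : ℝ, β = α₀ ^ 3 * κ := ⟨_, rfl⟩
  have hβ0 : 0 < β := by rw [hβ]; positivity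
  obtain ⟨τ, hτ⟩ : ∃ τ : ℝ, τ = min (β / 8) α₀ := ⟨_, rfl⟩
  have hτ0 : 0 < τ := by rw [hτ]; positivity
  have hτ1 : τ ≤ β / 8 := by rw [hτ]; exact min_le_left _ _
  have hτ2 : τ ≤ α₀ := by rw [hτ]; exact min_le_right _ _
  have hth0 : 0 ≤ th c k := by
    unfold th
    rw [sub_nonneg, div_le_one (by positivity)]
    nlinarith
  have hth1 : th c k < 1 := by
    unfold th
    have : 0 < c / (4 * k * (k + 1)) := by positivity
    linarith
  obtain ⟨M, hM⟩ : ∃ M : ℕ, th c k ^ M < min (β / 4) 1 :=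
    exists_pow_lt_of_lt_one (by positivity) hth1
  have hM1 : (th c k ^ M) ^ 2 ≤ β / 4 := by
    have h1 : 0 ≤ th c k ^ M := by positivity
    have h2 : th c k ^ M < β / 4 := hM.trans_le (min_le_left _ _)
    have h3 : th c k ^ M < 1 := hM.trans_le (min_le_right _ _)
    nlinarith
  obtain ⟨T, hT⟩ : ∃ T : ℕ, 1 / τ < T := exists_nat_gt _
  obtain ⟨N₀, hN₀⟩ : ∃ N₀ : ℕ, max (8 / β) (2 / τ) + 2 ≤ N₀ := exists_nat_ge _
  refine ⟨it (4 * M) T, N₀, fun n hn z hgap F hF U C hU hC => ?_⟩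
  have hnN : (N₀ : ℝ) ≤ n := by exact_mod_cast hn
  have hn1 : 8 / β ≤ n := by linarith [le_max_left (8 / β) (2 / τ)]
  have hn2 : 2 / τ ≤ n := by linarith [le_max_right (8 / β) (2 / τ)]
  have hn3 : (2 : ℝ) ≤ n := by
    have : 0 < 8 / β := by positivity
    linarith [le_max_left (8 / β) (2 / τ)]
  have hn3' : 2 ≤ n := by exact_mod_cast hn3
  have hn0 : (0 : ℝ) < n := by linarith
  have hτn : 2 ≤ τ * n := by
    rw [div_le_iff₀ hτ0] at hn2; linarith
  obtain ⟨ι, hι, hne, g, hg1, hg2⟩ := family hk z c hc hgap F hF M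
  have hstep : ∀ (U : Finset (Fin n)) (C : ℕ), α₀ * n ≤ #U → (#U : ℝ) < (1 - κ) * n →
      Cov F C U → ∃ U' : Finset (Fin n), (#U : ℝ) + τ * n ≤ #U' ∧ Cov F (3 * C + 4 * M) U' := by
    intro U C hU hU2 hC
    obtain ⟨α, hα'⟩ : ∃ α : ℝ, α = #U / n := ⟨_, rfl⟩
    have hαU : (#U : ℝ) = α * n := by rw [hα']; field_simp
    rw [hαU] at hU hU2
    have hα1 : α₀ ≤ α := le_of_mul_le_mul_right hU hn0
    have hα2 : α < 1 - κ := lt_of_mul_lt_mul_right hU2 hn0.le
    have hnum : 2 * τ + (th c k ^ M) ^ 2 + 1 / n < α ^ 3 * (1 - α) := by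
      have e1 : β ≤ α ^ 3 * (1 - α) := by
        rw [hβ]
        apply mul_le_mul (pow_le_pow_left₀ hα.le hα1 3) (by linarith) hκ.le
        exact pow_nonneg (hα.le.trans hα1) 3
      have e2 : 1 / (n : ℝ) ≤ β / 8 := by
        rw [div_le_iff₀ hβ0] at hn1
        rw [div_le_div_iff₀ hn0 (by norm_num)]
        linarith
      linarith
    obtain ⟨i, i', h1, h2⟩ := overlap hn3' ι g c M hg2 U α hαU τ hτ0.le (hτ2.trans hα1) hnum
    obtain ⟨x, hx⟩ : ∃ x : Perm (Fin n), x = (g i : Perm (Fin n))⁻¹ * (g i' : Perm (Fin n)) :=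
      ⟨_, rfl⟩
    have hxQ : F.Q (2 * M) x := by
      rw [hx]
      exact F.mono (by omega) (F.mul (F.inv (hg1 i)) (hg1 i'))
    -- the intersection
    have e1 : #(U ∩ U.image x) =
        #(U.image (g i : Perm (Fin n)) ∩ U.image (g i' : Perm (Fin n))) := by
      have : U.image (g i : Perm (Fin n)) ∩ U.image (g i' : Perm (Fin n)) =
          (U ∩ U.image x).image (g i : Perm (Fin n)) := by
        rw [Finset.image_inter _ _ (Equiv.injective _), Finset.image_image]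
        congr 2
        funext p
        rw [Function.comp_apply, hx, Perm.mul_apply]
        exact ((g i : Perm (Fin n)).apply_symm_apply _).symm
      rw [this, Finset.card_image_of_injective _ (Equiv.injective _)]
    rw [← e1] at h1 h2
    have e2 : #(U.image x \ U) + #(U ∩ U.image x) = #U := by
      have := Finset.card_sdiff_add_card_inter (U.image x) U
      rw [Finset.card_image_of_injective _ x.injective, Finset.inter_comm] at this
      exact this
    have e2' : (#(U.image x \ U) : ℝ) + #(U ∩ U.image x) = #U := by exact_mod_cast e2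
    obtain ⟨b, hb⟩ : ∃ b : ℕ, b = ⌈τ * n⌉₊ := ⟨_, rfl⟩
    have hb1 : τ * n ≤ b := by rw [hb]; exact Nat.le_ceil _
    have hb2 : 2 ≤ b := by
      have : (2 : ℝ) ≤ b := by linarith
      exact_mod_cast this
    obtain ⟨U', h3, h4, h5⟩ := join_step U C (2 * M) hC x hxQ b hb2
      (by rw [hb]; exact Nat.ceil_le.2 h1.le) (by
        rw [hb]; apply Nat.ceil_le.2; linarith)
    refine ⟨U', ?_, h5.up (by omega)⟩
    have : ((#U + b : ℕ) : ℝ) ≤ #U' := by exact_mod_cast h4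
    push_cast at this
    linarith
  obtain ⟨U', h1, h2, h3⟩ := iterate α₀ κ τ hτ0.le (4 * M) hstep T U C hU hC
  refine ⟨U', ?_, h2⟩
  rcases h3 with h3 | h3
  · exact h3
  · exfalso
    have h4 : (#U' : ℝ) ≤ n := by
      have := Finset.card_le_univ U'
      rw [Fintype.card_fin] at this
      exact_mod_cast this
    have h5 : (n : ℝ) < T * (τ * n) := by
      rw [div_lt_iff₀ hτ0] at hT
      nlinarith
    have h6 : (0 : ℝ) < #U := lt_of_lt_of_le (by positivity) hU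
    linarith

open Classical in
/-- one letter moves a proper part of the set out of it -/
theorem pt_step {k : ℕ} (z : Fin k → Alt n) (c : ℝ)
    (hgap : ∀ f : RC14.V 1 n, ∑ a, f a = 0 → c * ‖f‖ ^ 2 ≤ En (repA 1 n) z f) (hn : 1 ≤ n)
    (U : Finset (Fin n)) :
    c * ((#U : ℝ) * (n - #U) / n) ≤ ∑ i, 2 * (#(U.image (z i : Perm (Fin n)) \ U) : ℝ) := by
  have hn' : (0 : ℝ) < n := by exact_mod_cast hn
  have hcard : Fintype.card (Tup 1 n) = n := by
    rw [card_tup, Nat.descFactorial_one]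
  have h := LE.real_gap z c hgap (by rw [hcard]; omega) (fun J => if J 0 ∈ U then (1 : ℝ) else 0)
  -- sums over points
  obtain ⟨e, he⟩ : ∃ e : Tup 1 n ≃ Fin n, ∀ J, e J = J 0 := by
    refine ⟨⟨fun J => J 0, fun p => ⟨fun _ => p, fun a b _ => Subsingleton.elim a b⟩, ?_, ?_⟩,
      fun _ => rfl⟩
    · intro J
      ext1 i
      have : i = 0 := Subsingleton.elim _ _
      rw [this]
      rfl
    · intro p; rfl
  have hsum : ∀ G : Fin n → ℝ, ∑ J : Tup 1 n, G (J 0) = ∑ p, G p := by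
    intro G
    rw [← Equiv.sum_comp e]
    refine Finset.sum_congr rfl fun J _ => ?_
    rw [he]
  have h1 : ∑ J : Tup 1 n, (if J 0 ∈ U then (1 : ℝ) else 0) = #U := by
    rw [hsum fun p => if p ∈ U then (1 : ℝ) else 0, Finset.sum_ite_mem, Finset.univ_inter,
      Finset.sum_const, nsmul_eq_mul, mul_one]
  have h2 : ∑ J : Tup 1 n, (if J 0 ∈ U then (1 : ℝ) else 0) ^ 2 = #U := by
    rw [← h1]
    refine Finset.sum_congr rfl fun J _ => ?_
    split_ifs <;> norm_num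
  have h3 : ∀ i, ∑ J : Tup 1 n, ((if (mv ((z i : Alt n) : Perm (Fin n))⁻¹ J) 0 ∈ U then (1 : ℝ)
      else 0) - (if J 0 ∈ U then (1 : ℝ) else 0)) ^ 2 =
      2 * (#(U.image (z i : Perm (Fin n)) \ U) : ℝ) := by
    intro i
    obtain ⟨W, hW⟩ : ∃ W, W = U.image (z i : Perm (Fin n)) := ⟨_, rfl⟩
    have e1 : ∀ J : Tup 1 n, ((mv ((z i : Alt n) : Perm (Fin n))⁻¹ J) 0 ∈ U ↔ J 0 ∈ W) := by
      intro J
      rw [hW, Finset.mem_image, mv_apply]
      constructor
      · intro h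
        exact ⟨_, h, (z i : Perm (Fin n)).apply_symm_apply _⟩
      · rintro ⟨x, hx, hxa⟩
        have e : ((z i : Alt n) : Perm (Fin n))⁻¹ ((z i : Perm (Fin n)) x) = x :=
          (z i : Perm (Fin n)).symm_apply_apply x
        rw [← hxa, e]; exact hx
    simp only [e1]
    rw [← hW, hsum fun p => ((if p ∈ W then (1 : ℝ) else 0) - (if p ∈ U then (1 : ℝ) else 0)) ^ 2]
    have e2 : ∀ p, ((if p ∈ W then (1 : ℝ) else 0) - (if p ∈ U then (1 : ℝ) else 0)) ^ 2 =
        (if p ∈ W \ U then (1 : ℝ) else 0) + (if p ∈ U \ W then (1 : ℝ) else 0) := by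
      intro p
      simp only [Finset.mem_sdiff]
      by_cases h1 : p ∈ W <;> by_cases h2 : p ∈ U <;> simp [h1, h2]
    rw [Finset.sum_congr rfl fun p _ => e2 p, Finset.sum_add_distrib, Finset.sum_ite_mem,
      Finset.sum_ite_mem, Finset.univ_inter, Finset.univ_inter, Finset.sum_const, Finset.sum_const,
      nsmul_eq_mul, nsmul_eq_mul, mul_one, mul_one]
    have e3 : #(W \ U) = #(U \ W) := by
      apply Finset.card_sdiff_comm
      rw [hW, Finset.card_image_of_injective _ (Equiv.injective _)]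
    rw [e3]; ring
  rw [h1, h2, hcard] at h
  rw [Finset.sum_congr rfl fun i _ => h3 i] at h
  refine le_trans (le_of_eq ?_) h
  congr 1
  field_simp

/-- growth with the gap on points, for sets larger than one half -/
theorem grow_points (k : ℕ) (hk : 1 ≤ k) (c : ℝ) (hc : 0 < c) (δ κ : ℝ)
    (hδ : 0 < δ) (hκ : 0 < κ) : ∃ (φ : ℕ → ℕ) (N₀ : ℕ), ∀ n ≥ N₀, ∀ z : Fin k → Alt n,
    (∀ f : RC14.V 1 n, ∑ a, f a = 0 → c * ‖f‖ ^ 2 ≤ En (repA 1 n) z f) →
    ∀ (F : Filt (Perm (Fin n))), (∀ i, F.Q 1 (z i : Perm (Fin n))) →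
    ∀ (U : Finset (Fin n)) (C : ℕ), (1 / 2 + δ) * n ≤ #U → Cov F C U →
      ∃ U' : Finset (Fin n), (1 - κ) * n ≤ #U' ∧ Cov F (φ C) U' := by
  classical
  have hk' : (1 : ℝ) ≤ k := by exact_mod_cast hk
  obtain ⟨τ, hτ⟩ : ∃ τ : ℝ, τ = min (c * κ / (4 * k)) δ := ⟨_, rfl⟩
  have hτ0 : 0 < τ := by rw [hτ]; positivity
  have hτ1 : τ ≤ c * κ / (4 * k) := by rw [hτ]; exact min_le_left _ _
  have hτ2 : τ ≤ δ := by rw [hτ]; exact min_le_right _ _
  obtain ⟨T, hT⟩ : ∃ T : ℕ, 1 / τ < T := exists_nat_gt _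
  obtain ⟨N₀, hN₀⟩ : ∃ N₀ : ℕ, 2 / τ + 2 ≤ N₀ := exists_nat_ge _
  refine ⟨it 2 T, N₀, fun n hn z hgap F hF U C hU hC => ?_⟩
  have hnN : (N₀ : ℝ) ≤ n := by exact_mod_cast hn
  have hn2 : 2 / τ ≤ n := by linarith
  have hn3 : (2 : ℝ) ≤ n := by
    have : 0 < 2 / τ := by positivity
    linarith
  have hn3' : 2 ≤ n := by exact_mod_cast hn3
  have hn0 : (0 : ℝ) < n := by linarith
  have hτn : 2 ≤ τ * n := by
    rw [div_le_iff₀ hτ0] at hn2; linarith
  have hstep : ∀ (U : Finset (Fin n)) (C : ℕ), (1 / 2 + δ) * n ≤ #U → (#U : ℝ) < (1 - κ) * n →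
      Cov F C U → ∃ U' : Finset (Fin n), (#U : ℝ) + τ * n ≤ #U' ∧ Cov F (3 * C + 2) U' := by
    intro U C hU hU2 hC
    have h := pt_step z c hgap (by omega) U
    obtain ⟨i, hi⟩ : ∃ i, τ * n ≤ (#(U.image (z i : Perm (Fin n)) \ U) : ℝ) := by
      by_contra hcon
      push Not at hcon
      have : Nonempty (Fin k) := ⟨⟨0, by omega⟩⟩
      have h1 : ∑ i, 2 * (#(U.image (z i : Perm (Fin n)) \ U) : ℝ) < ∑ _i : Fin k, 2 * (τ * n) :=
        Finset.sum_lt_sum_of_nonempty Finset.univ_nonempty fun i _ => by linarith [hcon i]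
      rw [Finset.sum_const, Finset.card_univ, Fintype.card_fin, nsmul_eq_mul] at h1
      have h2 : c * κ * n / 2 ≤ c * ((#U : ℝ) * (n - #U) / n) := by
        have e1 : (n : ℝ) / 2 ≤ #U := by nlinarith
        have e2 : κ * n ≤ n - #U := by linarith
        have e3 : (n : ℝ) / 2 * (κ * n) ≤ #U * (n - #U) := by
          apply mul_le_mul e1 e2 (by positivity) (by positivity)
        have e4 : κ * n / 2 ≤ (#U : ℝ) * (n - #U) / n := by
          rw [le_div_iff₀ hn0]; linarith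
        have e5 := mul_le_mul_of_nonneg_left e4 hc.le
        linarith
      have h3 : (k : ℝ) * (2 * (τ * n)) ≤ c * κ * n / 2 := by
        have e1 : (k : ℝ) * τ ≤ c * κ / 4 := by
          rw [le_div_iff₀ (by positivity)] at hτ1
          linarith
        have e2 := mul_le_mul_of_nonneg_right e1 hn0.le
        linarith
      linarith
    have e2 : #(U.image (z i : Perm (Fin n)) \ U) + #(U ∩ U.image (z i : Perm (Fin n))) = #U := by
      have := Finset.card_sdiff_add_card_inter (U.image (z i : Perm (Fin n))) U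
      rw [Finset.card_image_of_injective _ (Equiv.injective _), Finset.inter_comm] at this
      exact this
    have e2' : (#(U.image (z i : Perm (Fin n)) \ U) : ℝ) +
        #(U ∩ U.image (z i : Perm (Fin n))) = #U := by exact_mod_cast e2
    have e3 : (#(U.image (z i : Perm (Fin n)) \ U) : ℝ) ≤ n - #U := by
      have h1 : U.image (z i : Perm (Fin n)) \ U ⊆ Uᶜ := by
        intro y hy
        rw [Finset.mem_compl]
        exact (Finset.mem_sdiff.1 hy).2
      have h2 := Finset.card_le_card h1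
      rw [Finset.card_compl, Fintype.card_fin] at h2
      have h3 : #U ≤ n := by simpa using Finset.card_le_univ U
      have h4 : (#(U.image (z i : Perm (Fin n)) \ U) : ℝ) ≤ ((n - #U : ℕ) : ℝ) := by
        exact_mod_cast h2
      rwa [Nat.cast_sub h3] at h4
    obtain ⟨b, hb⟩ : ∃ b : ℕ, b = ⌈τ * n⌉₊ := ⟨_, rfl⟩
    have hb1 : τ * n ≤ b := by rw [hb]; exact Nat.le_ceil _
    have hb2 : 2 ≤ b := by
      have : (2 : ℝ) ≤ b := by linarith
      exact_mod_cast this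
    obtain ⟨U', h3, h4, h5⟩ := join_step U C 1 hC (z i : Perm (Fin n)) (hF i) b hb2
      (by
        rw [hb]; apply Nat.ceil_le.2
        have : τ * n ≤ δ * n := mul_le_mul_of_nonneg_right hτ2 hn0.le
        nlinarith) (by rw [hb]; exact Nat.ceil_le.2 hi)
    refine ⟨U', ?_, h5.up (by omega)⟩
    have : ((#U + b : ℕ) : ℝ) ≤ #U' := by exact_mod_cast h4
    push_cast at this
    linarith
  obtain ⟨U', h1, h2, h3⟩ := iterate (1 / 2 + δ) κ τ hτ0.le 2 hstep T U C hU hC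
  refine ⟨U', ?_, h2⟩
  rcases h3 with h3 | h3
  · exact h3
  · exfalso
    have h4 : (#U' : ℝ) ≤ n := by
      have := Finset.card_le_univ U'
      rw [Fintype.card_fin] at this
      exact_mod_cast this
    have h5 : (n : ℝ) < T * (τ * n) := by
      rw [div_lt_iff₀ hτ0] at hT
      nlinarith
    have h6 : (0 : ℝ) < #U := lt_of_lt_of_le (by positivity) hU
    linarith

end

end Pool.Agent.K1H7.LG
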