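import Pool.Agent.K1H7.LG.Iter

/-!
Functions of low level which are almost invariant under the alternating group of almost all points.
-/

set_option autoImplicit false

namespace Pool.Agent.K1H7.LG
open RC14 Pool.Agent.K1H7.EP Pool.Agent.K1H7.LE Finset Equiv
open scoped InnerProductSpace ComplexConjugate

noncomputable section

variable {n j : ℕ}

lemma sum_ext0 (f : RC14.V j n) (G : Fin n → ℝ) (l : Fin j) :
    ∑ a : Tup j n, ‖f a‖ ^ 2 * G (a l) = ∑ ψ : Fin j → Fin n, ‖ext0 f ψ‖ ^ 2 * G (ψ l) := by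
  refine Fintype.sum_of_injective (fun a : Tup j n => (a : Fin j → Fin n))
    DFunLike.coe_injective _ _ ?_ ?_
  · intro ψ hψ
    have : ¬ Function.Injective ψ := by
      intro h
      exact hψ ⟨⟨ψ, h⟩, rfl⟩
    rw [ext0_not _ this]; simp
  · intro a
    rw [ext0_inj]

/-- summation over a coordinate -/
lemma sum_update (l : Fin j) (G : (Fin j → Fin n) → ℝ) :
    ∑ φ : Fin j → Fin n, ∑ y : Fin n, G (Function.update φ l y) =
      n * ∑ ψ : Fin j → Fin n, G ψ := by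
  classical
  have h1 : ∑ p : (Fin j → Fin n) × Fin n, G (Function.update p.1 l p.2) =
      ∑ p : (Fin j → Fin n) × Fin n, G p.1 := by
    refine Fintype.sum_equiv
      { toFun := fun p => (Function.update p.1 l p.2, p.1 l)
        invFun := fun p => (Function.update p.1 l p.2, p.1 l)
        left_inv := fun p => by ext1 <;> simp
        right_inv := fun p => by ext1 <;> simp } _ _ fun p => rfl
  rw [Fintype.sum_prod_type, Fintype.sum_prod_type] at h1
  rw [h1]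
  simp only [Finset.sum_const, Finset.card_univ, Fintype.card_fin, nsmul_eq_mul]
  rw [Finset.mul_sum]

/-- an even permutation which moves `y'` to `y` and fixes all points outside `{y, y', y''}` -/
lemma tri (y y' y'' : Fin n) (h1 : y ≠ y') (h2 : y ≠ y'') (h3 : y' ≠ y'') :
    ∃ g : Alt n, (g : Perm (Fin n)) y' = y ∧
      ∀ x, x ≠ y → x ≠ y' → x ≠ y'' → (g : Perm (Fin n)) x = x := by
  refine ⟨⟨Equiv.swap y y' * Equiv.swap y y'', ?_⟩, ?_, ?_⟩
  · rw [Perm.mem_alternatingGroup, Perm.sign_mul, Perm.sign_swap h1, Perm.sign_swap h2]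
    decide
  · change Equiv.swap y y' (Equiv.swap y y'' y') = y
    rw [swap_apply_of_ne_of_ne h1.symm h3, swap_apply_right]
  · intro x hx1 hx2 hx3
    change Equiv.swap y y' (Equiv.swap y y'' x) = x
    rw [swap_apply_of_ne_of_ne hx1 hx3, swap_apply_of_ne_of_ne hx1 hx2]

/-- one fibre -/
theorem fib (f : RC14.V j n) (hf : f ∈ Lvl j n) (U : Finset (Fin n))
    (hinv : ∀ g : Alt n, AU U (g : Perm (Fin n)) → repA j n g f = f)
    (t : ℕ) (ht : j + t ≤ #U) (ht3 : 3 ≤ t) (φ : Fin j → Fin n) (l : Fin j) :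
    (t : ℝ) * ∑ y ∈ U, ‖ext0 f (Function.update φ l y)‖ ^ 2 ≤
      #Uᶜ * ∑ y ∈ Uᶜ, ‖ext0 f (Function.update φ l y)‖ ^ 2 := by
  classical
  obtain ⟨e, he⟩ : ∃ e : Fin n → ℂ, ∀ y, e y = ext0 f (Function.update φ l y) :=
    ⟨_, fun _ => rfl⟩
  simp only [← he]
  obtain ⟨T, hT⟩ : ∃ T, T = U.filter fun y => Function.Injective (Function.update φ l y) :=
    ⟨_, rfl⟩
  have hTm : ∀ y, y ∈ T ↔ y ∈ U ∧ Function.Injective (Function.update φ l y) := by
    intro y; rw [hT, Finset.mem_filter]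
  have hz : ∀ y ∈ U, y ∉ T → e y = 0 := by
    intro y hy hyT
    rw [he]
    apply ext0_not
    intro h
    exact hyT ((hTm y).2 ⟨hy, h⟩)
  have hTU : T ⊆ U := by rw [hT]; exact Finset.filter_subset _ _
  have hsumT : ∀ G : Fin n → ℝ, (∀ y, e y = 0 → G y = 0) → ∑ y ∈ U, G y = ∑ y ∈ T, G y := by
    intro G hG
    symm
    exact Finset.sum_subset hTU fun y hy hyT => hG y (hz y hy hyT)
  have hr : 0 ≤ (#Uᶜ : ℝ) * ∑ y ∈ Uᶜ, ‖e y‖ ^ 2 := by positivity
  rw [hsumT (fun y => ‖e y‖ ^ 2) (fun y hy => by rw [hy]; simp)]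
  rcases Finset.eq_empty_or_nonempty T with h0 | ⟨y0, hy0⟩
  · rw [h0]; simpa using hr
  -- the size of T
  have hy0' := ((hTm y0).1 hy0).2
  have hUT : U ⊆ T ∪ (univ.erase l).image φ := by
    intro y hy
    rw [Finset.mem_union]
    by_cases h : y ∈ T
    · exact Or.inl h
    · right
      rw [Finset.mem_image]
      by_contra hcon
      push Not at hcon
      apply h
      rw [hTm]
      refine ⟨hy, fun a b hab => ?_⟩
      by_cases ha : a = l
      · by_cases hb : b = l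
        · rw [ha, hb]
        · rw [ha, Function.update_self, Function.update_of_ne hb] at hab
          exact absurd hab.symm (hcon b (Finset.mem_erase.2 ⟨hb, Finset.mem_univ _⟩))
      · by_cases hb : b = l
        · rw [hb, Function.update_self, Function.update_of_ne ha] at hab
          exact absurd hab (hcon a (Finset.mem_erase.2 ⟨ha, Finset.mem_univ _⟩))
        · rw [Function.update_of_ne ha, Function.update_of_ne hb] at hab
          apply hy0'
          rw [Function.update_of_ne ha, Function.update_of_ne hb, hab]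
  have hTc : t + 1 ≤ #T := by
    have h1 := (Finset.card_le_card hUT).trans (Finset.card_union_le _ _)
    have h2 : #((univ.erase l).image φ) ≤ j - 1 := by
      refine Finset.card_image_le.trans ?_
      rw [Finset.card_erase_of_mem (Finset.mem_univ l), Finset.card_univ, Fintype.card_fin]
    have h3 := l.pos
    omega
  -- constant on T
  have hoth : ∀ y ∈ T, ∀ i, i ≠ l → φ i ≠ y := by
    intro y hy i hi h
    have h1 := ((hTm y).1 hy).2
    have h2 : Function.update φ l y i = Function.update φ l y l := by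
      rw [Function.update_of_ne hi, Function.update_self, h]
    exact hi (h1 h2)
  have hconst : ∀ y ∈ T, ∀ y' ∈ T, e y = e y' := by
    intro y hy y' hy'
    by_cases hyy : y = y'
    · rw [hyy]
    obtain ⟨y'', hy'', h1⟩ : ∃ y'' ∈ T, y'' ∉ ({y, y'} : Finset (Fin n)) := by
      apply Finset.exists_mem_notMem_of_card_lt_card
      have := Finset.card_le_two (a := y) (b := y')
      omega
    rw [Finset.mem_insert, Finset.mem_singleton] at h1
    push Not at h1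
    obtain ⟨g, hg1, hg2⟩ := tri y y' y'' hyy h1.1.symm h1.2.symm
    have hgU : AU U (g : Perm (Fin n)) := by
      refine ⟨Perm.mem_alternatingGroup.1 g.2, fun x hx => hg2 x ?_ ?_ ?_⟩
      · rintro rfl; exact hx (hTU hy)
      · rintro rfl; exact hx (hTU hy')
      · rintro rfl; exact hx (hTU hy'')
    rw [he, he]
    have h2 := ext0_rep (g : Perm (Fin n)) f (Function.update φ l y)
    have h3 : rep j n (g : Perm (Fin n)) f = f := hinv g hgU
    rw [h3] at h2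
    rw [h2]
    congr 1
    funext i
    by_cases hi : i = l
    · subst hi
      rw [Function.update_self, Function.update_self, Perm.inv_eq_iff_eq]
      exact hg1.symm
    · rw [Function.update_of_ne hi, Function.update_of_ne hi, Perm.inv_eq_iff_eq]
      exact (hg2 _ (hoth y hy i hi) (hoth y' hy' i hi) (hoth y'' hy'' i hi)).symm
  -- the sum vanishes
  have hs : ∑ y, e y = 0 := by
    rw [Finset.sum_congr rfl fun y _ => he y]
    exact mem_Lvl.1 hf φ l
  have hsU : ∑ y ∈ U, e y = (#T : ℂ) * e y0 := by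
    rw [← Finset.sum_subset hTU fun y hy hyT => hz y hy hyT,
      Finset.sum_congr rfl fun y hy => hconst y hy y0 hy0, Finset.sum_const, nsmul_eq_mul]
  have hsplit := Finset.sum_add_sum_compl U e
  rw [hs, hsU] at hsplit
  have h1 : (#T : ℝ) * ‖e y0‖ ≤ ∑ y ∈ Uᶜ, 1 * ‖e y‖ := by
    have e1 : (#T : ℂ) * e y0 = -∑ y ∈ Uᶜ, e y := eq_neg_of_add_eq_zero_left hsplit
    have e2 : ‖(#T : ℂ) * e y0‖ = (#T : ℝ) * ‖e y0‖ := by
      rw [norm_mul, Complex.norm_natCast]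
    rw [← e2, e1, norm_neg]
    refine (norm_sum_le _ _).trans (le_of_eq ?_)
    exact Finset.sum_congr rfl fun y _ => (one_mul _).symm
  have h2 : ((#T : ℝ) * ‖e y0‖) ^ 2 ≤ #Uᶜ * ∑ y ∈ Uᶜ, ‖e y‖ ^ 2 := by
    refine (pow_le_pow_left₀ (by positivity) h1 2).trans ?_
    refine (Finset.sum_mul_sq_le_sq_mul_sq _ _ _).trans (le_of_eq ?_)
    rw [one_pow, Finset.sum_const, nsmul_eq_mul, mul_one]
  have h3 : ∑ y ∈ T, ‖e y‖ ^ 2 = #T * ‖e y0‖ ^ 2 := by
    rw [Finset.sum_congr rfl fun y hy => by rw [hconst y hy y0 hy0], Finset.sum_const,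
      nsmul_eq_mul]
  rw [h3]
  have h4 : (t : ℝ) ≤ #T := by
    have : ((t + 1 : ℕ) : ℝ) ≤ #T := by exact_mod_cast hTc
    push_cast at this; linarith
  calc (t : ℝ) * (#T * ‖e y0‖ ^ 2) ≤ #T * (#T * ‖e y0‖ ^ 2) :=
        mul_le_mul_of_nonneg_right h4 (by positivity)
    _ = ((#T : ℝ) * ‖e y0‖) ^ 2 := by ring
    _ ≤ _ := h2

/-- the mass of an invariant function on the tuples with a coordinate in `U` is small -/
theorem fib_sum (f : RC14.V j n) (hf : f ∈ Lvl j n) (U : Finset (Fin n))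
    (hinv : ∀ g : Alt n, AU U (g : Perm (Fin n)) → repA j n g f = f)
    (t : ℕ) (ht : j + t ≤ #U) (ht3 : 3 ≤ t) (l : Fin j) :
    (t : ℝ) * ∑ a : Tup j n, ‖f a‖ ^ 2 * (if a l ∈ U then 1 else 0) ≤ #Uᶜ * ‖f‖ ^ 2 := by
  classical
  have hn : (0 : ℝ) < n := by
    have h1 : #U ≤ n := by simpa using Finset.card_le_univ U
    have : 0 < n := by omega
    exact_mod_cast this
  have h1 : ∀ φ : Fin j → Fin n,
      (t : ℝ) * ∑ y, ‖ext0 f (Function.update φ l y)‖ ^ 2 *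
        (if (Function.update φ l y) l ∈ U then 1 else 0) ≤
      #Uᶜ * ∑ y, ‖ext0 f (Function.update φ l y)‖ ^ 2 * 1 := by
    intro φ
    have h2 := fib f hf U hinv t ht ht3 φ l
    have e1 : ∑ y, ‖ext0 f (Function.update φ l y)‖ ^ 2 *
        (if (Function.update φ l y) l ∈ U then (1 : ℝ) else 0) =
        ∑ y ∈ U, ‖ext0 f (Function.update φ l y)‖ ^ 2 := by
      simp only [Function.update_self, mul_ite, mul_one, mul_zero]
      rw [Finset.sum_ite_mem, Finset.univ_inter]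
    have e2 : ∑ y ∈ Uᶜ, ‖ext0 f (Function.update φ l y)‖ ^ 2 ≤
        ∑ y, ‖ext0 f (Function.update φ l y)‖ ^ 2 * 1 := by
      simp only [mul_one]
      exact Finset.sum_le_sum_of_subset_of_nonneg (Finset.subset_univ _)
        fun _ _ _ => by positivity
    rw [e1]
    exact h2.trans (mul_le_mul_of_nonneg_left e2 (by positivity))
  have h2 : ∑ φ : Fin j → Fin n, (t : ℝ) * ∑ y, ‖ext0 f (Function.update φ l y)‖ ^ 2 *
        (if (Function.update φ l y) l ∈ U then 1 else 0) ≤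
      ∑ φ : Fin j → Fin n, (#Uᶜ : ℝ) * ∑ y, ‖ext0 f (Function.update φ l y)‖ ^ 2 * 1 :=
    Finset.sum_le_sum fun φ _ => h1 φ
  rw [← Finset.mul_sum, ← Finset.mul_sum,
    sum_update l (fun ψ => ‖ext0 f ψ‖ ^ 2 * (if ψ l ∈ U then 1 else 0)),
    sum_update l (fun ψ => ‖ext0 f ψ‖ ^ 2 * 1)] at h2
  have h3 := sum_ext0 f (fun y => if y ∈ U then (1 : ℝ) else 0) l
  have h4 := sum_ext0 f (fun _ => (1 : ℝ)) l
  rw [← h3, ← h4] at h2
  have h5 : ∑ a : Tup j n, ‖f a‖ ^ 2 * 1 = ‖f‖ ^ 2 := by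
    rw [EuclideanSpace.norm_sq_eq]; simp only [mul_one]
  rw [h5] at h2
  have h6 : (n : ℝ) * ((t : ℝ) * ∑ a : Tup j n, ‖f a‖ ^ 2 * (if a l ∈ U then 1 else 0)) ≤
      n * (#Uᶜ * ‖f‖ ^ 2) := by linarith
  exact le_of_mul_le_mul_left h6 hn

/-! ### the distribution of one coordinate -/

/-- the part of `f` on the tuples whose coordinate `l` is `p` -/
def pr (l : Fin j) (p : Fin n) (f : RC14.V j n) : RC14.V j n :=
  WithLp.toLp 2 fun a => if a l = p then f a else 0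

lemma pr_apply (l : Fin j) (p : Fin n) (f : RC14.V j n) (a : Tup j n) :
    pr l p f a = if a l = p then f a else 0 := rfl

lemma pr_sub (l : Fin j) (p : Fin n) (f g : RC14.V j n) :
    pr l p (f - g) = pr l p f - pr l p g := by
  ext a
  rw [PiLp.sub_apply, pr_apply, pr_apply, pr_apply, PiLp.sub_apply]
  split_ifs <;> simp

lemma pr_norm (l : Fin j) (p : Fin n) (f : RC14.V j n) :
    ‖pr l p f‖ ^ 2 = ∑ a : Tup j n, ‖f a‖ ^ 2 * (if a l = p then 1 else 0) := by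
  rw [EuclideanSpace.norm_sq_eq]
  refine Finset.sum_congr rfl fun a _ => ?_
  rw [pr_apply]
  split_ifs <;> simp

lemma pr_sum (l : Fin j) (f : RC14.V j n) (S : Finset (Fin n)) :
    ∑ p ∈ S, ‖pr l p f‖ ^ 2 = ∑ a : Tup j n, ‖f a‖ ^ 2 * (if a l ∈ S then 1 else 0) := by
  simp only [pr_norm]
  rw [Finset.sum_comm]
  refine Finset.sum_congr rfl fun a _ => ?_
  rw [← Finset.mul_sum, Finset.sum_ite_eq]

lemma pr_univ (l : Fin j) (f : RC14.V j n) : ∑ p, ‖pr l p f‖ ^ 2 = ‖f‖ ^ 2 := by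
  rw [pr_sum, EuclideanSpace.norm_sq_eq]
  simp

lemma pr_rep (l : Fin j) (p : Fin n) (f : RC14.V j n) (g : Alt n) :
    ‖pr l p (repA j n g f)‖ = ‖pr l ((g : Perm (Fin n))⁻¹ p) f‖ := by
  have h : pr l p (repA j n g f) = repA j n g (pr l ((g : Perm (Fin n))⁻¹ p) f) := by
    ext a
    rw [pr_apply, repA_apply, repA_apply, pr_apply, mv_apply]
    have : (g : Perm (Fin n))⁻¹ (a l) = (g : Perm (Fin n))⁻¹ p ↔ a l = p :=
      (g : Perm (Fin n))⁻¹.injective.eq_iff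
    simp only [this]
  rw [h, (repA j n g).norm_map]

/-- sums over `1`-tuples -/
lemma sum_one (G : Fin n → ℝ) : ∑ J : Tup 1 n, G (J 0) = ∑ p, G p := by
  obtain ⟨e, he⟩ : ∃ e : Tup 1 n ≃ Fin n, ∀ J, e J = J 0 := by
    refine ⟨⟨fun J => J 0, fun p => ⟨fun _ => p, fun a b _ => Subsingleton.elim a b⟩, ?_, ?_⟩,
      fun _ => rfl⟩
    · intro J
      ext1 i
      have : i = 0 := Subsingleton.elim _ _
      rw [this]
      rfl
    · intro p; rfl
  rw [← Equiv.sum_comp e]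
  refine Finset.sum_congr rfl fun J _ => ?_
  rw [he]

/-- the mass outside `U` -/
theorem mass_out {k : ℕ} (z : Fin k → Alt n) (c : ℝ) (hc : 0 < c) (hn : 1 ≤ n)
    (hgap : ∀ f : RC14.V 1 n, ∑ a, f a = 0 → c * ‖f‖ ^ 2 ≤ En (repA 1 n) z f)
    (f : RC14.V j n) (l : Fin j) (S : Finset (Fin n)) :
    ∑ a : Tup j n, ‖f a‖ ^ 2 * (if a l ∈ S then 1 else 0) ≤
      2 / c * En (repA j n) z f + 2 * #S / n * ‖f‖ ^ 2 := by
  have hn' : (0 : ℝ) < n := by exact_mod_cast hn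
  have hcard : Fintype.card (Tup 1 n) = n := by
    rw [card_tup, Nat.descFactorial_one]
  obtain ⟨H, hH⟩ : ∃ H : Fin n → ℝ, ∀ p, H p = ‖pr l p f‖ := ⟨_, fun _ => rfl⟩
  have h := LE.real_gap z c hgap (by rw [hcard]; omega) (fun J => H (J 0))
  rw [hcard, sum_one fun p => H p ^ 2, sum_one fun p => H p] at h
  have h1 : ∑ p, H p ^ 2 = ‖f‖ ^ 2 := by
    rw [← pr_univ l f]
    exact Finset.sum_congr rfl fun p _ => by rw [hH]
  have h2 : ∑ i, ∑ J : Tup 1 n, (H ((mv ((z i : Alt n) : Perm (Fin n))⁻¹ J) 0) - H (J 0)) ^ 2 ≤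
      En (repA j n) z f := by
    unfold En
    refine Finset.sum_le_sum fun i _ => ?_
    have e0 : ∀ J : Tup 1 n, (mv ((z i : Alt n) : Perm (Fin n))⁻¹ J) 0 =
      ((z i : Alt n) : Perm (Fin n))⁻¹ (J 0) := fun J => rfl
    simp only [e0]
    rw [sum_one fun p => (H (((z i : Alt n) : Perm (Fin n))⁻¹ p) - H p) ^ 2]
    rw [← pr_univ l (repA j n (z i) f - f)]
    refine Finset.sum_le_sum fun p _ => ?_
    rw [hH, hH, ← pr_rep, pr_sub, ← sq_abs]
    exact pow_le_pow_left₀ (abs_nonneg _) (abs_norm_sub_norm_le _ _) 2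
  obtain ⟨E, hE⟩ : ∃ E, E = En (repA j n) z f := ⟨_, rfl⟩
  rw [← hE] at h2 ⊢
  obtain ⟨s, hs⟩ : ∃ s, s = ∑ p, H p := ⟨_, rfl⟩
  rw [← hs, h1] at h
  have h3 : c * (‖f‖ ^ 2 - s ^ 2 / n) ≤ E := h.trans h2
  have h4 : ∑ p, (H p - s / n) ^ 2 = ‖f‖ ^ 2 - s ^ 2 / n := by
    have e1 : ∀ p, (H p - s / n) ^ 2 = H p ^ 2 - 2 * (s / n) * H p + (s / n) ^ 2 := by
      intro p; ring
    rw [Finset.sum_congr rfl fun p _ => e1 p, Finset.sum_add_distrib, Finset.sum_sub_distrib,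
      ← Finset.mul_sum, ← hs, h1, Finset.sum_const, Finset.card_univ, Fintype.card_fin,
      nsmul_eq_mul]
    field_simp
    ring
  have h5 : ∑ p ∈ S, (H p - s / n) ^ 2 ≤ E / c := by
    rw [le_div_iff₀ hc]
    have e1 : ∑ p ∈ S, (H p - s / n) ^ 2 ≤ ∑ p, (H p - s / n) ^ 2 :=
      Finset.sum_le_sum_of_subset_of_nonneg (Finset.subset_univ _) fun _ _ _ => by positivity
    rw [h4] at e1
    nlinarith
  have h6 : s ^ 2 ≤ n * ‖f‖ ^ 2 := by
    have := sq_sum_le_card_mul_sum_sq (s := (univ : Finset (Fin n))) (f := H)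
    rw [← hs, h1, Finset.card_univ, Fintype.card_fin] at this
    exact this
  rw [← pr_sum]
  calc ∑ p ∈ S, ‖pr l p f‖ ^ 2 = ∑ p ∈ S, H p ^ 2 :=
        Finset.sum_congr rfl fun p _ => by rw [hH]
    _ ≤ ∑ p ∈ S, (2 * (H p - s / n) ^ 2 + 2 * (s / n) ^ 2) := by
        refine Finset.sum_le_sum fun p _ => ?_
        nlinarith [sq_nonneg (H p - s / n - s / n)]
    _ = 2 * ∑ p ∈ S, (H p - s / n) ^ 2 + 2 * #S * (s ^ 2 / n ^ 2) := by
        rw [Finset.sum_add_distrib, ← Finset.mul_sum, Finset.sum_const, nsmul_eq_mul]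
        ring
    _ ≤ 2 * (E / c) + 2 * #S * (‖f‖ ^ 2 / n) := by
        have e1 : s ^ 2 / (n : ℝ) ^ 2 ≤ ‖f‖ ^ 2 / n := by
          rw [div_le_div_iff₀ (by positivity) hn']
          nlinarith
        have e2 := mul_le_mul_of_nonneg_left e1 (show (0 : ℝ) ≤ 2 * #S by positivity)
        linarith
    _ = _ := by ring

/-- **low levels** -/
theorem low {k : ℕ} (z : Fin k → Alt n) (c : ℝ) (hc : 0 < c) (hn : 100 ≤ n)
    (hgap : ∀ f : RC14.V 1 n, ∑ a, f a = 0 → c * ‖f‖ ^ 2 ≤ En (repA 1 n) z f)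
    (hj1 : 1 ≤ j) (hj2 : 20 * j ≤ n) (f : RC14.V j n) (hf : f ∈ Lvl j n)
    (U : Finset (Fin n)) (hU : 20 * #Uᶜ ≤ n) (C : ℝ) (hC : 0 ≤ C)
    (hinv : ∀ g : Alt n, AU U (g : Perm (Fin n)) →
      ‖repA j n g f - f‖ ^ 2 ≤ C * En (repA j n) z f) :
    3 / 4 * ‖f‖ ^ 2 ≤ (2 / c + 2 * C) * En (repA j n) z f := by
  classical
  have hnR : (100 : ℝ) ≤ n := by exact_mod_cast hn
  have hn0 : (0 : ℝ) < n := by linarith
  obtain ⟨l, -⟩ : ∃ l : Fin j, True := ⟨⟨0, hj1⟩, trivial⟩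
  obtain ⟨E, hE⟩ : ∃ E, E = En (repA j n) z f := ⟨_, rfl⟩
  have hE0 : 0 ≤ E := by rw [hE]; exact RC14.En_nonneg _ _ _
  rw [← hE] at hinv ⊢
  -- the average
  obtain ⟨A, hA⟩ : ∃ A : Finset (Alt n), ∀ g, g ∈ A ↔ AU U (g : Perm (Fin n)) :=
    ⟨univ.filter fun g : Alt n => AU U (g : Perm (Fin n)), fun g => by simp⟩
  have hA1 : (1 : Alt n) ∈ A := by
    rw [hA]; exact ⟨by simp, fun _ _ => rfl⟩
  have hAc : (#A : ℂ) ≠ 0 := by
    exact_mod_cast (Finset.card_pos.2 ⟨1, hA1⟩).ne'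
  have hAc' : (0 : ℝ) < #A := by exact_mod_cast Finset.card_pos.2 ⟨1, hA1⟩
  obtain ⟨f', hf'⟩ : ∃ f' : RC14.V j n, f' = (1 / (#A : ℂ)) • ∑ g ∈ A, repA j n g f := ⟨_, rfl⟩
  have hLvl : f' ∈ Lvl j n := by
    rw [hf']
    exact Submodule.smul_mem _ _ (Submodule.sum_mem _ fun g _ => Lvl_inv j n g f hf)
  have hf'inv : ∀ g : Alt n, AU U (g : Perm (Fin n)) → repA j n g f' = f' := by
    intro g hg
    rw [hf', map_smul, map_sum]
    congr 1
    refine Finset.sum_bij (fun h _ => g * h) ?_ ?_ ?_ ?_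
    · intro h hh
      rw [hA] at hh ⊢
      refine ⟨?_, fun y hy => ?_⟩
      · rw [Subgroup.coe_mul, Perm.sign_mul, hg.1, hh.1, one_mul]
      · rw [Subgroup.coe_mul, Perm.mul_apply, hh.2 y hy, hg.2 y hy]
    · intro h _ h' _ e
      exact mul_left_cancel e
    · intro h hh
      refine ⟨g⁻¹ * h, ?_, by group⟩
      rw [hA] at hh ⊢
      have hg' := hg.inv
      refine ⟨?_, fun y hy => ?_⟩
      · rw [Subgroup.coe_mul, Perm.sign_mul, hh.1, mul_one]
        exact hg'.1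
      · rw [Subgroup.coe_mul, Perm.mul_apply, hh.2 y hy]
        exact hg'.2 y hy
    · intro h _
      rw [map_mul]; rfl
  have hdist : ‖f - f'‖ ^ 2 ≤ C * E := by
    have e1 : f' - f = (1 / (#A : ℂ)) • ∑ g ∈ A, (repA j n g f - f) := by
      rw [Finset.sum_sub_distrib, smul_sub, Finset.sum_const, ← Nat.cast_smul_eq_nsmul ℂ, smul_smul,
        one_div, inv_mul_cancel₀ hAc, one_smul, hf', one_div]
    have e2 : ‖f' - f‖ ≤ √(C * E) := by
      rw [e1, norm_smul, norm_div, norm_one, Complex.norm_natCast, one_div, inv_mul_le_iff₀ hAc']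
      refine (norm_sum_le _ _).trans ?_
      refine (Finset.sum_le_card_nsmul _ _ (√(C * E)) fun g hg => ?_).trans (le_of_eq ?_)
      · exact Real.le_sqrt_of_sq_le (hinv g ((hA g).1 hg))
      · rw [nsmul_eq_mul]
    rw [norm_sub_rev]
    calc ‖f' - f‖ ^ 2 ≤ √(C * E) ^ 2 := pow_le_pow_left₀ (norm_nonneg _) e2 2
      _ = _ := Real.sq_sqrt (by positivity)
  have hnorm : ‖f'‖ ≤ ‖f‖ := by
    rw [hf', norm_smul, norm_div, norm_one, Complex.norm_natCast, one_div, inv_mul_le_iff₀ hAc']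
    refine (norm_sum_le _ _).trans ?_
    refine (Finset.sum_le_card_nsmul _ _ ‖f‖ fun g hg => ?_).trans (le_of_eq ?_)
    · rw [(repA j n g).norm_map]
    · rw [nsmul_eq_mul]
  -- mass of f'
  have hUc : #U + #Uᶜ = n := by
    rw [Finset.card_add_card_compl, Fintype.card_fin]
  have hfs := fib_sum f' hLvl U hf'inv (#U - j) (by omega) (by omega) l
  have h18 : ∑ a : Tup j n, ‖f' a‖ ^ 2 * (if a l ∈ U then (1 : ℝ) else 0) ≤ 1 / 18 * ‖f‖ ^ 2 := by
    have e1 : (9 / 10 * n : ℝ) ≤ ((#U - j : ℕ) : ℝ) := by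
      have : 9 * n ≤ 10 * (#U - j) := by omega
      have : ((9 * n : ℕ) : ℝ) ≤ ((10 * (#U - j) : ℕ) : ℝ) := by exact_mod_cast this
      push_cast at this ⊢
      linarith
    have e2 : (#Uᶜ : ℝ) ≤ n / 20 := by
      have : ((20 * #Uᶜ : ℕ) : ℝ) ≤ n := by exact_mod_cast hU
      push_cast at this
      linarith
    have e3 : 0 ≤ ∑ a : Tup j n, ‖f' a‖ ^ 2 * (if a l ∈ U then (1 : ℝ) else 0) :=
      Finset.sum_nonneg fun a _ => by split_ifs <;> positivity
    have e4 := mul_le_mul_of_nonneg_right e1 e3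
    have e5 : ‖f'‖ ^ 2 ≤ ‖f‖ ^ 2 := pow_le_pow_left₀ (norm_nonneg _) hnorm 2
    have e6 : (#Uᶜ : ℝ) * ‖f'‖ ^ 2 ≤ n / 20 * ‖f‖ ^ 2 :=
      mul_le_mul e2 e5 (by positivity) (by positivity)
    have e7 : 9 / 10 * (n : ℝ) * ∑ a : Tup j n, ‖f' a‖ ^ 2 * (if a l ∈ U then (1 : ℝ) else 0) ≤
        9 / 10 * n * (1 / 18 * ‖f‖ ^ 2) := by linarith
    exact le_of_mul_le_mul_left e7 (by positivity)
  -- mass of f
  have hout := mass_out z c hc (by omega) hgap f l Uᶜ
  rw [← hE] at hout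
  have hin : ‖f‖ ^ 2 = ∑ a : Tup j n, ‖f a‖ ^ 2 * (if a l ∈ U then (1 : ℝ) else 0) +
      ∑ a : Tup j n, ‖f a‖ ^ 2 * (if a l ∈ Uᶜ then (1 : ℝ) else 0) := by
    rw [EuclideanSpace.norm_sq_eq, ← Finset.sum_add_distrib]
    refine Finset.sum_congr rfl fun a _ => ?_
    simp only [Finset.mem_compl]
    by_cases h : a l ∈ U <;> simp [h]
  have hcmp : ∑ a : Tup j n, ‖f a‖ ^ 2 * (if a l ∈ U then (1 : ℝ) else 0) ≤
      2 * ∑ a : Tup j n, ‖f' a‖ ^ 2 * (if a l ∈ U then (1 : ℝ) else 0) + 2 * ‖f - f'‖ ^ 2 := by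
    rw [EuclideanSpace.norm_sq_eq (f - f'), Finset.mul_sum, Finset.mul_sum,
      ← Finset.sum_add_distrib]
    refine Finset.sum_le_sum fun a _ => ?_
    rw [PiLp.sub_apply]
    have e1 : ‖f a‖ ≤ ‖f' a‖ + ‖f a - f' a‖ := by
      have : f a = f' a + (f a - f' a) := by ring
      calc ‖f a‖ = ‖f' a + (f a - f' a)‖ := by rw [← this]
        _ ≤ _ := norm_add_le _ _
    have e2 : ‖f a‖ ^ 2 ≤ 2 * ‖f' a‖ ^ 2 + 2 * ‖f a - f' a‖ ^ 2 := by
      nlinarith [sq_nonneg (‖f' a‖ - ‖f a - f' a‖), norm_nonneg (f a)]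
    split_ifs
    · linarith
    · have : 0 ≤ 2 * ‖f a - f' a‖ ^ 2 := by positivity
      linarith
  have e2 : 2 * (#Uᶜ : ℝ) / n * ‖f‖ ^ 2 ≤ 1 / 10 * ‖f‖ ^ 2 := by
    apply mul_le_mul_of_nonneg_right _ (by positivity)
    rw [div_le_iff₀ hn0]
    have : ((20 * #Uᶜ : ℕ) : ℝ) ≤ n := by exact_mod_cast hU
    push_cast at this
    linarith
  have e3 : (2 / c + 2 * C) * E = 2 / c * E + 2 * (C * E) := by ring
  rw [e3]
  have e4 : 0 ≤ ‖f‖ ^ 2 := by positivity
  linarith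

end

end Pool.Agent.K1H7.LG
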