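import Pool.Agent.K1H7.LE.High

/-!
Random short words: the spectral gap on pairs makes bounded words nearly independent on pairs.
-/

set_option autoImplicit false

namespace Pool.Agent.K1H7.LG
open RC14 Pool.Agent.K1H7.EP Finset Equiv
open scoped InnerProductSpace ComplexConjugate

noncomputable section

section
variable {G : Type*} [Group G] {V : Type*} [NormedAddCommGroup V] [InnerProductSpace ℂ V]

/-- one step of averaging contracts the vectors with large energy -/
lemma contr {k : ℕ} (ρ : G →* (V ≃ₗᵢ[ℂ] V)) (z : Fin k → G) (c : ℝ) (hc : 0 < c) (w : V)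
    (hw : c * ‖w‖ ^ 2 ≤ En ρ z w) :
    ‖w + ∑ j, ρ (z j) w‖ ≤ ((k : ℝ) + 1 - c / (4 * k)) * ‖w‖ := by
  rcases Nat.eq_zero_or_pos k with hk | hk
  · subst hk
    have : c * ‖w‖ ^ 2 ≤ 0 := by simpa [En] using hw
    have h1 : ‖w‖ ^ 2 = 0 := by nlinarith [sq_nonneg ‖w‖]
    have h2 : w = 0 := by simpa using h1
    subst h2; simp
  have hk' : (0 : ℝ) < k := by exact_mod_cast hk
  -- a generator with a large displacement
  obtain ⟨j, hj⟩ : ∃ j, c / k * ‖w‖ ^ 2 ≤ ‖ρ (z j) w - w‖ ^ 2 := by
    by_contra hcon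
    push Not at hcon
    have : Nonempty (Fin k) := ⟨⟨0, hk⟩⟩
    have h1 : En ρ z w < ∑ _j : Fin k, c / k * ‖w‖ ^ 2 :=
      Finset.sum_lt_sum_of_nonempty Finset.univ_nonempty fun i _ => hcon i
    rw [Finset.sum_const, Finset.card_univ, Fintype.card_fin, nsmul_eq_mul] at h1
    have h2 : (k : ℝ) * (c / k * ‖w‖ ^ 2) = c * ‖w‖ ^ 2 := by field_simp
    linarith
  have h1 : ‖w + ρ (z j) w‖ ≤ (2 - c / (4 * k)) * ‖w‖ := by
    have e1 := parallelogram_law_with_norm ℂ w (ρ (z j) w)
    rw [(ρ (z j)).norm_map, norm_sub_rev] at e1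
    have e2 : ‖w + ρ (z j) w‖ ^ 2 ≤ (4 - c / k) * ‖w‖ ^ 2 := by nlinarith
    have e3 : ‖ρ (z j) w - w‖ ≤ 2 * ‖w‖ := by
      refine (norm_sub_le _ _).trans ?_
      rw [(ρ (z j)).norm_map]; linarith
    by_cases hw0 : ‖w‖ = 0
    · rw [hw0] at e2 ⊢
      have : ‖w + ρ (z j) w‖ ^ 2 ≤ 0 := by simpa using e2
      have h3 : ‖w + ρ (z j) w‖ = 0 := by nlinarith [sq_nonneg ‖w + ρ (z j) w‖]
      rw [h3]; simp
    have hwp : 0 < ‖w‖ := lt_of_le_of_ne (norm_nonneg _) (Ne.symm hw0)
    have hck : c / k ≤ 4 := by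
      have : ‖ρ (z j) w - w‖ ^ 2 ≤ (2 * ‖w‖) ^ 2 := pow_le_pow_left₀ (norm_nonneg _) e3 2
      have h4 : c / k * ‖w‖ ^ 2 ≤ 4 * ‖w‖ ^ 2 := by nlinarith
      exact le_of_mul_le_mul_right h4 (by positivity)
    have hx : c / (4 * k) = c / k / 4 := by field_simp
    rw [hx]
    refine le_of_sq_le_sq ?_ (mul_nonneg (by linarith) (norm_nonneg _))
    refine e2.trans ?_
    rw [mul_pow]
    apply mul_le_mul_of_nonneg_right _ (by positivity)
    have : 0 < c / k := by positivity
    nlinarith
  have h2 : w + ∑ i, ρ (z i) w = (w + ρ (z j) w) + ∑ i ∈ univ.erase j, ρ (z i) w := by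
    rw [← Finset.add_sum_erase _ _ (Finset.mem_univ j)]; abel
  have h3 : ‖∑ i ∈ univ.erase j, ρ (z i) w‖ ≤ ((k : ℝ) - 1) * ‖w‖ := by
    refine (norm_sum_le _ _).trans ?_
    have : ∀ i ∈ univ.erase j, ‖ρ (z i) w‖ ≤ ‖w‖ := fun i _ => by rw [(ρ (z i)).norm_map]
    refine (Finset.sum_le_card_nsmul _ _ _ this).trans ?_
    rw [Finset.card_erase_of_mem (Finset.mem_univ j), Finset.card_univ, Fintype.card_fin,
      nsmul_eq_mul, Nat.cast_sub hk, Nat.cast_one]
  rw [h2]
  refine (norm_add_le _ _).trans ?_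
  linarith

end

/-- the contraction factor -/
def th (c : ℝ) (k : ℕ) : ℝ := 1 - c / (4 * k * (k + 1))

lemma th_mul (c : ℝ) (k : ℕ) (hk : 1 ≤ k) : ((k : ℝ) + 1) * th c k = k + 1 - c / (4 * k) := by
  unfold th
  have : (0 : ℝ) < k := by exact_mod_cast hk
  field_simp

variable {n : ℕ}

/-- a family of short words whose average contracts the mean zero functions on `j`-tuples -/
theorem family {k j : ℕ} (hk : 1 ≤ k) (z : Fin k → Alt n) (c : ℝ) (hc : 0 < c)
    (hgap : ∀ f : RC14.V j n, ∑ a, f a = 0 → c * ‖f‖ ^ 2 ≤ En (repA j n) z f)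
    (F : Filt (Perm (Fin n))) (hF : ∀ i, F.Q 1 (z i : Perm (Fin n))) (M : ℕ) :
    ∃ (ι : Type) (_ : Fintype ι) (_ : Nonempty ι) (g : ι → Alt n),
      (∀ i, F.Q M (g i : Perm (Fin n))) ∧
      ∀ u : RC14.V j n, ∑ a, u a = 0 →
        ‖∑ i, repA j n (g i) u‖ ≤ Fintype.card ι * th c k ^ M * ‖u‖ := by
  classical
  induction M with
  | zero =>
    refine ⟨Unit, inferInstance, inferInstance, fun _ => 1, fun _ => F.one, fun u _ => ?_⟩
    simp
  | succ M ih =>
    obtain ⟨ι, hι, hne, g, hg, hu⟩ := ih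
    refine ⟨Option (Fin k) × ι, inferInstance, inferInstance,
      fun p => (match p.1 with | none => 1 | some j => z j) * g p.2, ?_, ?_⟩
    · rintro ⟨o, i⟩
      cases o with
      | none =>
        have := hg i
        simp only [one_mul]
        exact F.mono (by omega) this
      | some j =>
        have := F.mul (hF j) (hg i)
        exact F.mono (by omega) this
    · intro u hu0
      obtain ⟨w, hw⟩ : ∃ w, w = ∑ i, repA j n (g i) u := ⟨_, rfl⟩
      have hw0 : ∑ a, w a = 0 := by
        rw [hw]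
        have e1 : ∀ a, (∑ i, repA j n (g i) u) a = ∑ i, (repA j n (g i) u) a := by
          intro a
          rw [WithLp.ofLp_sum, Finset.sum_apply]
        rw [Finset.sum_congr rfl fun a _ => e1 a, Finset.sum_comm]
        refine Finset.sum_eq_zero fun i _ => ?_
        rw [Finset.sum_congr rfl fun a _ => repA_apply (g i) u a]
        exact (Equiv.sum_comp (mvE ((g i : Alt n) : Perm (Fin n))⁻¹) (fun a => u a)).trans hu0
      have e2 : ∑ p : Option (Fin k) × ι,
          repA j n ((match p.1 with | none => 1 | some j => z j) * g p.2) u =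
          w + ∑ i, repA j n (z i) w := by
        rw [Fintype.sum_prod_type, Fintype.sum_option]
        congr 1
        · simp only [one_mul]; rw [hw]
        · refine Finset.sum_congr rfl fun i _ => ?_
          rw [hw, map_sum]
          refine Finset.sum_congr rfl fun i' _ => ?_
          rw [map_mul]; rfl
      rw [e2]
      refine (contr (repA j n) z c hc w (hgap w hw0)).trans ?_
      rw [← th_mul c k hk]
      have h1 : 0 ≤ ((k : ℝ) + 1) * th c k ∨ ‖w‖ = 0 := by
        by_cases hw1 : ‖w‖ = 0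
        · exact Or.inr hw1
        · left
          have h2 := contr (repA j n) z c hc w (hgap w hw0)
          rw [← th_mul c k hk] at h2
          have h3 : 0 < ‖w‖ := lt_of_le_of_ne (norm_nonneg _) (Ne.symm hw1)
          by_contra hcon
          push Not at hcon
          have := norm_nonneg (w + ∑ i, repA j n (z i) w)
          nlinarith
      rcases h1 with h1 | h1
      · have h2 := mul_le_mul_of_nonneg_left (hu u hu0) h1
        rw [← hw] at h2
        refine h2.trans (le_of_eq ?_)
        rw [Fintype.card_prod, Fintype.card_option, Fintype.card_fin]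
        push_cast
        ring
      · rw [h1, mul_zero]
        -- nonnegativity of the right hand side
        by_cases hu1 : u = 0
        · subst hu1; simp
        have hth : 0 ≤ th c k := by
          have h2 := contr (repA j n) z c hc u (hgap u hu0)
          rw [← th_mul c k hk] at h2
          have h3 : 0 < ‖u‖ := norm_pos_iff.2 hu1
          by_contra hcon
          push Not at hcon
          have h4 : ((k : ℝ) + 1) * th c k < 0 := mul_neg_of_pos_of_neg (by positivity) hcon
          have := norm_nonneg (u + ∑ i, repA j n (z i) u)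
          nlinarith
        positivity

end

end Pool.Agent.K1H7.LG
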